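import Pool.Agent.Lib_MP_22d2c8_gen.Frozen

/-!
# Approximation of monotone circuits by small CNFs and DNFs
-/

namespace Pool.Agent.Lib_MP_22d2c8_gen

open Finset

variable {P : Type} [DecidableEq P]

/-- The transversal tree: a family `𝒜` of sets of size at most `a`, all transversals. -/
theorem conv_aux (𝒜 : Finset (Finset P)) (a : ℕ) (hA : ∀ E ∈ 𝒜, E.card ≤ a) (K : ℕ) :
    ∀ j : ℕ, ∀ c0 : Finset P, c0.card + j = K →
    ∃ G G' : Finset (Finset P), (∀ c ∈ G, c.card < K ∧ ∀ E ∈ 𝒜, (c ∩ E).Nonempty) ∧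
      (∀ c ∈ G', c.card = K) ∧ G'.card ≤ a ^ j ∧
      ∀ z : Finset P, Disjoint c0 z → (∀ E ∈ 𝒜, ¬ E ⊆ z) → ∃ c ∈ G ∪ G', Disjoint c z := by
  intro j
  induction j with
  | zero =>
    intro c0 h0
    refine ⟨∅, {c0}, by simp, by simpa using h0, by simp, ?_⟩
    intro z hz _
    exact ⟨c0, by simp, hz⟩
  | succ j ih =>
    intro c0 h0
    by_cases hT : ∀ E ∈ 𝒜, (c0 ∩ E).Nonempty
    · refine ⟨{c0}, ∅, ?_, by simp, by simp, ?_⟩
      · intro c hc
        rw [Finset.mem_singleton] at hc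
        subst hc
        exact ⟨by omega, hT⟩
      · intro z hz _
        exact ⟨c0, by simp, hz⟩
    · push Not at hT
      obtain ⟨E, hE, hEe⟩ := hT
      have hne : ∀ x ∈ E, x ∉ c0 := by
        intro x hx hx0
        have : x ∈ c0 ∩ E := Finset.mem_inter.mpr ⟨hx0, hx⟩
        rw [hEe] at this
        exact absurd this (Finset.notMem_empty x)
      have hex : ∀ x : P, ∃ G G' : Finset (Finset P), x ∈ E →
          ((∀ c ∈ G, c.card < K ∧ ∀ E ∈ 𝒜, (c ∩ E).Nonempty) ∧
          (∀ c ∈ G', c.card = K) ∧ G'.card ≤ a ^ j ∧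
          ∀ z : Finset P, Disjoint (insert x c0) z → (∀ E ∈ 𝒜, ¬ E ⊆ z) →
            ∃ c ∈ G ∪ G', Disjoint c z) := by
        intro x
        by_cases hx : x ∈ E
        · have hcard : (insert x c0).card + j = K := by
            rw [Finset.card_insert_of_notMem (hne x hx)]; omega
          obtain ⟨G, G', h⟩ := ih (insert x c0) hcard
          exact ⟨G, G', fun _ => h⟩
        · exact ⟨∅, ∅, fun h => absurd h hx⟩
      choose G G' hG using hex
      refine ⟨E.biUnion G, E.biUnion G', ?_, ?_, ?_, ?_⟩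
      · intro c hc
        obtain ⟨x, hx, hcx⟩ := Finset.mem_biUnion.mp hc
        exact (hG x hx).1 c hcx
      · intro c hc
        obtain ⟨x, hx, hcx⟩ := Finset.mem_biUnion.mp hc
        exact (hG x hx).2.1 c hcx
      · refine (Finset.card_biUnion_le).trans ?_
        calc ∑ x ∈ E, (G' x).card ≤ ∑ _x ∈ E, a ^ j :=
              Finset.sum_le_sum fun x hx => (hG x hx).2.2.1
          _ = E.card * a ^ j := by rw [Finset.sum_const, smul_eq_mul]
          _ ≤ a * a ^ j := Nat.mul_le_mul_right _ (hA E hE)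
          _ = a ^ (j + 1) := by ring
      · intro z hz hAz
        have hEz : ¬ E ⊆ z := hAz E hE
        rw [Finset.not_subset] at hEz
        obtain ⟨x, hx, hxz⟩ := hEz
        have hd : Disjoint (insert x c0) z := by
          rw [Finset.disjoint_insert_left]
          exact ⟨hxz, hz⟩
        obtain ⟨c, hc, hcd⟩ := (hG x hx).2.2.2 z hd hAz
        refine ⟨c, ?_, hcd⟩
        rw [Finset.mem_union] at hc ⊢
        rcases hc with hc | hc
        · exact Or.inl (Finset.mem_biUnion.mpr ⟨x, hx, hc⟩)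
        · exact Or.inr (Finset.mem_biUnion.mpr ⟨x, hx, hc⟩)

theorem conv (𝒜 : Finset (Finset P)) (a k : ℕ) (hA : ∀ E ∈ 𝒜, E.card ≤ a) :
    ∃ G G' : Finset (Finset P), (∀ c ∈ G, c.card ≤ k) ∧ (∀ c ∈ G, ∀ E ∈ 𝒜, (c ∩ E).Nonempty) ∧
      (∀ c ∈ G', c.card = k + 1) ∧ G'.card ≤ a ^ (k + 1) ∧
      ∀ z : Finset P, (∀ E ∈ 𝒜, ¬ E ⊆ z) → ∃ c ∈ G ∪ G', Disjoint c z := by
  obtain ⟨G, G', h1, h2, h3, h4⟩ := conv_aux 𝒜 a hA (k + 1) (k + 1) ∅ (by simp)
  exact ⟨G, G', fun c hc => Nat.lt_succ_iff.mp (h1 c hc).1, fun c hc => (h1 c hc).2, h2, h3,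
    fun z hz => h4 z (Finset.disjoint_empty_left z) hz⟩

/-- A vertex function `g` is approximated by the DNF `D` and the CNF `C` up to the errors
`eD`, `eC`. -/
structure Apx (ρ σ : ℕ) (eD eC : Finset (Finset P)) (g : Finset P → Bool)
    (D C : Finset (Finset P)) : Prop where
  szD : ∀ E ∈ D, E.card ≤ ρ
  szC : ∀ c ∈ C, c.card ≤ σ
  hit : ∀ E ∈ D, ∀ c ∈ C, (c ∩ E).Nonempty
  low : ∀ z, (∀ c ∈ C, (c ∩ z).Nonempty) → (∀ c ∈ eC, (c ∩ z).Nonempty) → g z = true
  upp : ∀ z, g z = true → (∃ E ∈ D, E ⊆ z) ∨ (∃ E ∈ eD, E ⊆ z)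

theorem Apx.mono {ρ σ : ℕ} {eD eC eD' eC' : Finset (Finset P)} {g : Finset P → Bool}
    {D C : Finset (Finset P)} (h : Apx ρ σ eD eC g D C) (h1 : eD ⊆ eD') (h2 : eC ⊆ eC') :
    Apx ρ σ eD' eC' g D C := by
  refine ⟨h.szD, h.szC, h.hit, fun z hz hz' => h.low z hz fun c hc => hz' c (h2 hc),
    fun z hz => ?_⟩
  rcases h.upp z hz with h3 | ⟨E, hE, hEz⟩
  · exact Or.inl h3
  · exact Or.inr ⟨E, h1 hE, hEz⟩

theorem apx_true (ρ σ : ℕ) (eD eC : Finset (Finset P)) (g : Finset P → Bool)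
    (hg : ∀ z, g z = true) : Apx ρ σ eD eC g {∅} ∅ := by
  refine ⟨by simp, by simp, by simp, fun z _ _ => hg z, fun z _ => Or.inl ⟨∅, by simp, by simp⟩⟩

theorem apx_false (ρ σ : ℕ) (eD eC : Finset (Finset P)) (g : Finset P → Bool)
    (hg : ∀ z, g z = false) : Apx ρ σ eD eC g ∅ {∅} := by
  refine ⟨by simp, by simp, by simp, fun z hz _ => ?_, fun z hz => ?_⟩
  · have := hz ∅ (by simp)
    simp at this
  · rw [hg z] at hz; exact absurd hz (by simp)

theorem apx_var {ρ σ : ℕ} (hρ : 1 ≤ ρ) (hσ : 1 ≤ σ) (eD eC : Finset (Finset P))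
    (g : Finset P → Bool) (p : P) (hg : ∀ z, g z = true ↔ p ∈ z) :
    Apx ρ σ eD eC g {{p}} {{p}} := by
  refine ⟨by simpa using hρ, by simpa using hσ, by simp, fun z hz _ => ?_, fun z hz => ?_⟩
  · have := hz {p} (by simp)
    rw [hg]
    obtain ⟨x, hx⟩ := this
    rw [Finset.mem_inter, Finset.mem_singleton] at hx
    rw [← hx.1]; exact hx.2
  · rw [hg] at hz
    exact Or.inl ⟨{p}, by simp, by simpa using hz⟩

/-- and-gates -/
theorem apx_and [Fintype P] {V : Type} [DecidableEq V] {ρ σ : ℕ} (eD eC : Finset (Finset P))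
    (Q : Finset V) (F : V → Finset P → Bool) (g : Finset P → Bool)
    (hg : ∀ z, g z = true ↔ ∀ u ∈ Q, F u z = true)
    (hQ : ∀ u ∈ Q, ∃ D C, Apx ρ σ eD eC (F u) D C) :
    ∃ e : Finset (Finset P), (∀ E ∈ e, E.card = ρ + 1) ∧ e.card ≤ σ ^ (ρ + 1) ∧
      ∃ D C, Apx ρ σ (eD ∪ e) eC g D C := by
  have hQ' : ∀ u : V, ∃ D C, u ∈ Q → Apx ρ σ eD eC (F u) D C := by
    intro u
    by_cases hu : u ∈ Q
    · obtain ⟨D, C, h⟩ := hQ u hu
      exact ⟨D, C, fun _ => h⟩
    · exact ⟨∅, ∅, fun h => absurd h hu⟩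
  choose D C hDC using hQ'
  have hC : ∀ c ∈ Q.biUnion C, c.card ≤ σ := by
    intro c hc
    obtain ⟨u, hu, hcu⟩ := Finset.mem_biUnion.mp hc
    exact (hDC u hu).szC c hcu
  obtain ⟨G, G', h1, h2, h3, h4, h5⟩ := conv (Q.biUnion C) σ ρ hC
  refine ⟨G', h3, h4, G, Q.biUnion C, ?_⟩
  refine ⟨h1, hC, ?_, ?_, ?_⟩
  · intro E hE c hc
    have := h2 E hE c hc
    rwa [Finset.inter_comm] at this
  · intro z hz hz'
    rw [hg]
    intro u hu
    exact (hDC u hu).low z (fun c hc => hz c (Finset.mem_biUnion.mpr ⟨u, hu, hc⟩)) hz'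
  · intro z hz
    rw [hg] at hz
    by_cases he : ∃ E ∈ eD, E ⊆ z
    · obtain ⟨E, hE, hEz⟩ := he
      exact Or.inr ⟨E, Finset.mem_union_left _ hE, hEz⟩
    · have hall : ∀ c ∈ Q.biUnion C, (c ∩ z).Nonempty := by
        intro c hc
        obtain ⟨u, hu, hcu⟩ := Finset.mem_biUnion.mp hc
        rcases (hDC u hu).upp z (hz u hu) with ⟨E, hE, hEz⟩ | h
        · exact ((hDC u hu).hit E hE c hcu).mono (Finset.inter_subset_inter_left hEz)
        · exact absurd h he
      have := h5 zᶜ (by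
        intro c hc hcz
        obtain ⟨x, hx⟩ := hall c hc
        rw [Finset.mem_inter] at hx
        exact (Finset.mem_compl.mp (hcz hx.1)) hx.2)
      obtain ⟨E, hE, hEz⟩ := this
      have hEz' : E ⊆ z := by
        intro x hx
        by_contra hxz
        exact (Finset.disjoint_left.mp hEz hx) (Finset.mem_compl.mpr hxz)
      rw [Finset.mem_union] at hE
      rcases hE with hE | hE
      · exact Or.inl ⟨E, hE, hEz'⟩
      · exact Or.inr ⟨E, Finset.mem_union_right _ hE, hEz'⟩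

/-- or-gates -/
theorem apx_or {V : Type} [DecidableEq V] {ρ σ : ℕ} (eD eC : Finset (Finset P))
    (Q : Finset V) (F : V → Finset P → Bool) (g : Finset P → Bool)
    (hg : ∀ z, g z = true ↔ ∃ u ∈ Q, F u z = true)
    (hQ : ∀ u ∈ Q, ∃ D C, Apx ρ σ eD eC (F u) D C) :
    ∃ e : Finset (Finset P), (∀ E ∈ e, E.card = σ + 1) ∧ e.card ≤ ρ ^ (σ + 1) ∧
      ∃ D C, Apx ρ σ eD (eC ∪ e) g D C := by
  have hQ' : ∀ u : V, ∃ D C, u ∈ Q → Apx ρ σ eD eC (F u) D C := by
    intro u
    by_cases hu : u ∈ Q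
    · obtain ⟨D, C, h⟩ := hQ u hu
      exact ⟨D, C, fun _ => h⟩
    · exact ⟨∅, ∅, fun h => absurd h hu⟩
  choose D C hDC using hQ'
  have hD : ∀ E ∈ Q.biUnion D, E.card ≤ ρ := by
    intro c hc
    obtain ⟨u, hu, hcu⟩ := Finset.mem_biUnion.mp hc
    exact (hDC u hu).szD c hcu
  obtain ⟨G, G', h1, h2, h3, h4, h5⟩ := conv (Q.biUnion D) ρ σ hD
  refine ⟨G', h3, h4, Q.biUnion D, G, ?_⟩
  refine ⟨hD, h1, ?_, ?_, ?_⟩
  · intro E hE c hc
    exact h2 c hc E hE
  · intro z hz hz'
    have hno : ¬ ∀ E ∈ Q.biUnion D, ¬ E ⊆ z := by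
      intro hall
      obtain ⟨c, hc, hcz⟩ := h5 z hall
      rw [Finset.mem_union] at hc
      have : (c ∩ z).Nonempty := by
        rcases hc with hc | hc
        · exact hz c hc
        · exact hz' c (Finset.mem_union_right _ hc)
      rw [Finset.disjoint_iff_inter_eq_empty] at hcz
      rw [hcz] at this
      exact Finset.not_nonempty_empty this
    push Not at hno
    obtain ⟨E, hE, hEz⟩ := hno
    obtain ⟨u, hu, hEu⟩ := Finset.mem_biUnion.mp hE
    rw [hg]
    refine ⟨u, hu, (hDC u hu).low z (fun c hc => ?_) (fun c hc => hz' c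
      (Finset.mem_union_left _ hc))⟩
    exact ((hDC u hu).hit E hEu c hc).mono (Finset.inter_subset_inter_left hEz)
  · intro z hz
    rw [hg] at hz
    obtain ⟨u, hu, huz⟩ := hz
    rcases (hDC u hu).upp z huz with ⟨E, hE, hEz⟩ | ⟨E, hE, hEz⟩
    · exact Or.inl ⟨E, Finset.mem_biUnion.mpr ⟨u, hu, hE⟩, hEz⟩
    · exact Or.inr ⟨E, hE, hEz⟩

/-- All vertices of a monotone circuit are approximated with few errors. -/
theorem approx {n s : ℕ} (C : Circuit n s) (hm : C.IsMonotone)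
    (F : Fin n ⊕ Fin s → Finset (Fin n) → Bool)
    (hF : ∀ z : Finset (Fin n), C.IsRun (fun j => decide (j ∈ z)) (fun v => F v z))
    (ρ σ : ℕ) (hρ : 1 ≤ ρ) (hσ : 1 ≤ σ) :
    ∃ eD eC : Finset (Finset (Fin n)), (∀ E ∈ eD, E.card = ρ + 1) ∧
      eD.card ≤ s * σ ^ (ρ + 1) ∧
      (∀ E ∈ eC, E.card = σ + 1) ∧ eC.card ≤ s * ρ ^ (σ + 1) ∧
      ∀ v, ∃ D Cc, Apx ρ σ eD eC (F v) D Cc := by
  classical
  obtain ⟨rank, hrank⟩ := C.acyclic
  have main : ∀ G : Finset (Fin s), (∀ g ∈ G, ∀ h, Sum.inr h ∈ (C.op g).preds → h ∈ G) →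
      ∃ eD eC : Finset (Finset (Fin n)), (∀ E ∈ eD, E.card = ρ + 1) ∧
      eD.card ≤ G.card * σ ^ (ρ + 1) ∧
      (∀ E ∈ eC, E.card = σ + 1) ∧ eC.card ≤ G.card * ρ ^ (σ + 1) ∧
      ∀ v : Fin n ⊕ Fin s, (∀ g, v = Sum.inr g → g ∈ G) → ∃ D Cc, Apx ρ σ eD eC (F v) D Cc := by
    intro G
    induction G using Finset.induction_on_max_value (fun g : Fin s => rank (Sum.inr g)) with
    | empty =>
      intro _
      refine ⟨∅, ∅, by simp, by simp, by simp, by simp, ?_⟩
      intro v hv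
      rcases v with j | g
      · refine ⟨{{j}}, {{j}}, apx_var hρ hσ _ _ _ j fun z => ?_⟩
        have := (hF z).1 j
        simp only at this
        rw [this]
        simp
      · exact absurd (hv g rfl) (Finset.notMem_empty g)
    | insert g0 G hg0 hmax ih =>
      intro hcl
      have hcl' : ∀ g ∈ G, ∀ h, Sum.inr h ∈ (C.op g).preds → h ∈ G := by
        intro g hg h hh
        have h1 := hcl g (Finset.mem_insert_of_mem hg) h hh
        rw [Finset.mem_insert] at h1
        rcases h1 with rfl | h1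
        · have h2 := hrank g _ hh
          have h3 := hmax g hg
          omega
        · exact h1
      obtain ⟨eD, eC, hD1, hD2, hC1, hC2, hall⟩ := ih hcl'
      have hpre : ∀ u ∈ (C.op g0).preds, ∃ D Cc, Apx ρ σ eD eC (F u) D Cc := by
        intro u hu
        apply hall
        intro h hh
        subst hh
        have h1 := hcl g0 (Finset.mem_insert_self _ _) h hu
        rw [Finset.mem_insert] at h1
        rcases h1 with rfl | h1
        · exact absurd (hrank h _ hu) (lt_irrefl _)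
        · exact h1
      have hcard : (insert g0 G).card = G.card + 1 := Finset.card_insert_of_notMem hg0
      -- it is enough to add error families for `g0`
      have fin : ∀ e e' : Finset (Finset (Fin n)), (∀ E ∈ e, E.card = ρ + 1) →
          e.card ≤ σ ^ (ρ + 1) →
          (∀ E ∈ e', E.card = σ + 1) → e'.card ≤ ρ ^ (σ + 1) →
          (∃ D Cc, Apx ρ σ (eD ∪ e) (eC ∪ e') (F (Sum.inr g0)) D Cc) →
          ∃ eD eC : Finset (Finset (Fin n)), (∀ E ∈ eD, E.card = ρ + 1) ∧
          eD.card ≤ (insert g0 G).card * σ ^ (ρ + 1) ∧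
          (∀ E ∈ eC, E.card = σ + 1) ∧ eC.card ≤ (insert g0 G).card * ρ ^ (σ + 1) ∧
          ∀ v : Fin n ⊕ Fin s, (∀ g, v = Sum.inr g → g ∈ insert g0 G) →
            ∃ D Cc, Apx ρ σ eD eC (F v) D Cc := by
        intro e e' h1 h2 h3 h4 h5
        refine ⟨eD ∪ e, eC ∪ e', ?_, ?_, ?_, ?_, ?_⟩
        · intro E hE
          rw [Finset.mem_union] at hE
          rcases hE with hE | hE
          · exact hD1 E hE
          · exact h1 E hE
        · refine (Finset.card_union_le _ _).trans ?_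
          rw [hcard, Nat.add_mul, Nat.one_mul]
          exact Nat.add_le_add hD2 h2
        · intro E hE
          rw [Finset.mem_union] at hE
          rcases hE with hE | hE
          · exact hC1 E hE
          · exact h3 E hE
        · refine (Finset.card_union_le _ _).trans ?_
          rw [hcard, Nat.add_mul, Nat.one_mul]
          exact Nat.add_le_add hC2 h4
        · intro v hv
          by_cases hvg : v = Sum.inr g0
          · rw [hvg]; exact h5
          · obtain ⟨D, Cc, h⟩ := hall v (by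
              intro g hg
              have := hv g hg
              rw [Finset.mem_insert] at this
              rcases this with rfl | this
              · exact absurd hg hvg
              · exact this)
            exact ⟨D, Cc, h.mono Finset.subset_union_left Finset.subset_union_left⟩
      have hop0 := hm g0
      rcases hop : C.op g0 with Q | Q | ⟨Q, ψ⟩
      · -- and
        have hpre' : ∀ u ∈ Q, ∃ D Cc, Apx ρ σ eD eC (F u) D Cc := by
          intro u hu; apply hpre; rw [hop]; exact hu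
        obtain ⟨e, he1, he2, D, Cc, hA⟩ := apx_and eD eC Q F (F (Sum.inr g0)) (fun z => by
          have := (hF z).2 g0
          simp only at this
          rw [this, hop]
          simp [Op.eval]) hpre'
        exact fin e ∅ he1 he2 (by simp) (by simp) ⟨D, Cc, hA.mono (by simp) (by simp)⟩
      · -- or
        have hpre' : ∀ u ∈ Q, ∃ D Cc, Apx ρ σ eD eC (F u) D Cc := by
          intro u hu; apply hpre; rw [hop]; exact hu
        obtain ⟨e, he1, he2, D, Cc, hA⟩ := apx_or eD eC Q F (F (Sum.inr g0)) (fun z => by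
          have := (hF z).2 g0
          simp only at this
          rw [this, hop]
          simp [Op.eval]) hpre'
        exact fin ∅ e (by simp) (by simp) he1 he2 ⟨D, Cc, hA.mono (by simp) (by simp)⟩
      · -- arbitrary gates do not occur
        rw [hop] at hop0
        exact absurd hop0 (by simp [Op.isArb])
  obtain ⟨eD, eC, h1, h2, h3, h4, h5⟩ := main Finset.univ (fun g _ h _ => Finset.mem_univ h)
  rw [Finset.card_univ, Fintype.card_fin] at h2 h4
  exact ⟨eD, eC, h1, h2, h3, h4, fun v => h5 v fun g _ => Finset.mem_univ g⟩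

end Pool.Agent.Lib_MP_22d2c8_gen
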