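import Pool.Agent.Lib_MP_22d2c8_gen.Level

/-!
# The chain: filling the blocks one after another
-/

namespace Pool.Agent.Lib_MP_22d2c8_gen

open Finset

/-- The input of length `n` with the contents `x b` of the blocks (zero outside the blocks); `φ b i`
is the position of the `i`-th bit of the block `b`. -/
def cfg {n m B : ℕ} (φ : Fin B → Fin m → Fin n) (x : Fin B → Fin m → Bool) : Fin n → Bool :=
  fun j => decide (∃ b i, x b i = true ∧ φ b i = j)

/-- The blocks `φ` are disjoint. -/
def Disj {n m B : ℕ} (φ : Fin B → Fin m → Fin n) : Prop :=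
  ∀ b b' i i', φ b i = φ b' i' → b = b' ∧ i = i'

theorem cfg_apply {n m B : ℕ} {φ : Fin B → Fin m → Fin n} (hφ : Disj φ)
    (x : Fin B → Fin m → Bool) (b : Fin B) (i : Fin m) : cfg φ x (φ b i) = x b i := by
  unfold cfg
  cases h : x b i with
  | true => exact decide_eq_true ⟨b, i, h, rfl⟩
  | false =>
    refine decide_eq_false ?_
    rintro ⟨b', i', h', he⟩
    obtain ⟨rfl, rfl⟩ := hφ _ _ _ _ he
    rw [h] at h'
    exact absurd h' (by simp)

theorem cfg_mono {n m B : ℕ} (φ : Fin B → Fin m → Fin n) {x x' : Fin B → Fin m → Bool}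
    (h : ∀ b i, x b i = true → x' b i = true) (j : Fin n) (hj : cfg φ x j = true) :
    cfg φ x' j = true := by
  unfold cfg at hj ⊢
  rw [decide_eq_true_eq] at hj ⊢
  obtain ⟨b, i, h1, h2⟩ := hj
  exact ⟨b, i, h b i h1, h2⟩

/-- If at every stage the next block can be filled (without making `f` true) in such a way that
some entry vertex changes its value, then there are at most `T` blocks. -/
theorem chain_gen {n s m B : ℕ} (C : Circuit n s) (f : (Fin n → Bool) → Bool)
    (hC : C.Computes f) (T : ℕ) (hT : C.EntryChangesLE T) (φ : Fin B → Fin m → Fin n)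
    (f0 : (Fin m → Bool) → Bool) (h0 : f0 (fun _ => false) = false)
    (hstep : ∀ (x : Fin B → Fin m → Bool) (b : Fin B), (x b = fun _ => false) →
      (∀ b', f0 (x b') = false) → ∀ a0, C.IsRun (cfg φ x) a0 →
      ∃ y, f0 y = false ∧ ∀ a1, C.IsRun (cfg φ (Function.update x b y)) a1 →
        ∃ u ∈ C.entry, a0 u ≠ a1 u) : B ≤ T := by
  classical
  have main : ∀ i, i ≤ B → ∃ (x : ℕ → Fin B → Fin m → Bool) (a : ℕ → Fin n ⊕ Fin s → Bool),
      (∀ b : Fin B, i ≤ b → x i b = fun _ => false) ∧ (∀ b, f0 (x i b) = false) ∧
      (∀ k ≤ i, C.IsRun (cfg φ (x k)) (a k)) ∧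
      (∀ k < i, ∀ b j, x k b j = true → x (k + 1) b j = true) ∧
      (∀ k < i, ∃ u ∈ C.entry, a k u ≠ a (k + 1) u) := by
    intro i
    induction i with
    | zero =>
      intro _
      obtain ⟨a0, ha0, -⟩ := hC (cfg φ (fun _ _ => false))
      refine ⟨fun _ _ _ => false, fun _ => a0, fun _ _ => rfl, fun b => h0, fun _ _ => ha0,
        fun k hk => absurd hk (Nat.not_lt_zero k), fun k hk => absurd hk (Nat.not_lt_zero k)⟩
    | succ i ih =>
      intro hi
      obtain ⟨xs, as, hx1, hx2, hrun, hinc, hchg⟩ := ih (by omega)
      set bi : Fin B := ⟨i, by omega⟩ with hbi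
      have hxe : xs i bi = fun _ => false := hx1 bi (le_refl _)
      obtain ⟨y, hy1, hy2⟩ := hstep (xs i) bi hxe hx2 (as i) (hrun i le_rfl)
      obtain ⟨a1, ha1, -⟩ := hC (cfg φ (Function.update (xs i) bi y))
      refine ⟨fun k => if k ≤ i then xs k else Function.update (xs i) bi y,
        fun k => if k ≤ i then as k else a1, ?_, ?_, ?_, ?_, ?_⟩
      · intro b hb
        have hbne : b ≠ bi := by
          intro h
          rw [h] at hb
          simp only [hbi] at hb
          omega
        simp only [show ¬ (i + 1 ≤ i) by omega, if_false]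
        rw [Function.update_of_ne hbne]
        exact hx1 b (by omega)
      · intro b
        simp only [show ¬ (i + 1 ≤ i) by omega, if_false]
        by_cases hb : b = bi
        · rw [hb, Function.update_self]; exact hy1
        · rw [Function.update_of_ne hb]; exact hx2 b
      · intro k hk
        by_cases hki : k ≤ i
        · simp only [hki, if_true]; exact hrun k hki
        · simp only [hki, if_false]; exact ha1
      · intro k hk b j hj
        by_cases hki : k < i
        · simp only [show k ≤ i by omega, show k + 1 ≤ i by omega, if_true] at hj ⊢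
          exact hinc k hki b j hj
        · have hki' : k = i := by omega
          subst hki'
          simp only [le_refl, if_true, show ¬ (k + 1 ≤ k) by omega, if_false] at hj ⊢
          by_cases hb : b = bi
          · rw [hb, hxe] at hj
            exact absurd hj (by simp)
          · rw [Function.update_of_ne hb]; exact hj
      · intro k hk
        by_cases hki : k < i
        · simp only [show k ≤ i by omega, show k + 1 ≤ i by omega, if_true]
          exact hchg k hki
        · have hki' : k = i := by omega
          subst hki'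
          simp only [le_refl, if_true, show ¬ (k + 1 ≤ k) by omega, if_false]
          exact hy2 a1 ha1
  obtain ⟨xs, as, -, -, hrun, hinc, hchg⟩ := main B le_rfl
  have h1 := hT B (fun i => cfg φ (xs i)) as (fun i hi j hj => cfg_mono φ (hinc i hi) j hj) hrun
  have h2 : (Finset.range B).filter
      (fun i => ∃ u ∈ C.entry, as i u ≠ as (i + 1) u) = Finset.range B := by
    apply Finset.filter_true_of_mem
    intro i hi
    exact hchg i (Finset.mem_range.mp hi)
  rw [h2, Finset.card_range] at h1
  exact h1

/-- The monotone function computed by the frozen circuit and the entry vertices which are false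
at `Z`. -/
def special {n s : ℕ} (C : Circuit n s) (a0 a : Fin n ⊕ Fin s → Bool) : Prop :=
  a C.out = true ∨ ∃ u ∈ C.entry, a0 u = false ∧ a u = true

/-- The dichotomy: if there are more than `T` blocks then at some stage the frozen circuit with
the entry vertices computes `f0`. -/
theorem dichotomy {n s m B : ℕ} (C : Circuit n s) (f : (Fin n → Bool) → Bool)
    (hC : C.Computes f) (T : ℕ) (hT : C.EntryChangesLE T) (hB : T < B)
    (φ : Fin B → Fin m → Fin n)
    (f0 : (Fin m → Bool) → Bool) (h0 : f0 (fun _ => false) = false)
    (hf : ∀ x : Fin B → Fin m → Bool, f (cfg φ x) = true ↔ ∃ b, f0 (x b) = true) :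
    ∃ (x : Fin B → Fin m → Bool) (b : Fin B) (a0 : Fin n ⊕ Fin s → Bool),
      (x b = fun _ => false) ∧
      C.IsRun (cfg φ x) a0 ∧ ∀ y a, Frozen C (fun g => a0 (Sum.inr g))
        (cfg φ (Function.update x b y)) a → (special C a0 a ↔ f0 y = true) := by
  classical
  by_contra hcon
  push Not at hcon
  refine absurd (chain_gen C f hC T hT φ f0 h0 ?_) (by omega)
  intro x b hxb hx a0 ha0
  obtain ⟨y, a, haF, hne⟩ := hcon x b a0 hxb ha0
  have hle : ∀ j, cfg φ x j = true → cfg φ (Function.update x b y) j = true := by
    intro j hj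
    refine cfg_mono φ ?_ j hj
    intro b' i h
    by_cases hb : b' = b
    · rw [hb, hxb] at h
      exact absurd h (by simp)
    · rw [Function.update_of_ne hb]; exact h
  have hval : ∀ a', C.IsRun (cfg φ (Function.update x b y)) a' →
      (a' C.out = true ↔ f0 y = true) := by
    intro a' ha'
    obtain ⟨c, hc, hcf⟩ := hC (cfg φ (Function.update x b y))
    rw [run_unique C ha' hc, hcf, hf]
    constructor
    · rintro ⟨b', hb'⟩
      by_cases hb : b' = b
      · rw [hb, Function.update_self] at hb'; exact hb'
      · rw [Function.update_of_ne hb, hx b'] at hb'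
        exact absurd hb' (by simp)
    · intro h
      exact ⟨b, by rw [Function.update_self]; exact h⟩
  -- `f0 y = true` implies `special`
  have h1 : f0 y = true → special C a0 a := by
    intro h
    by_contra hs
    unfold special at hs
    push Not at hs
    have hrun := frozen_is_run C ha0 hle haF (fun u hu hu0 => by
      have := hs.2 u hu hu0
      simpa using this)
    exact hs.1 ((hval a hrun).mpr h)
  have hy0 : f0 y = false ∧ special C a0 a := by
    rcases hne with ⟨h2, h3⟩ | ⟨h2, h3⟩
    · exact ⟨by simpa using h3, h2⟩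
    · exact absurd (h1 h3) h2
  refine ⟨y, hy0.1, fun a1 ha1 => ?_⟩
  by_contra hall
  push Not at hall
  have hF1 := run_is_frozen C ha0 ha1 (fun u hu => (hall u hu).symm)
  have heq : a1 = a := frozen_unique C _ hF1 haF
  rcases hy0.2 with h | ⟨u, hu, hu0, hu1⟩
  · rw [← heq] at h
    have := (hval a1 ha1).mp h
    rw [hy0.1] at this
    exact absurd this (by simp)
  · rw [← heq, ← hall u hu, hu0] at hu1
    exact absurd hu1 (by simp)

end Pool.Agent.Lib_MP_22d2c8_gen
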