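import Mathlib

/-!
# Circuits with few non-monotone gates: definitions

Boolean circuits with and-gates and or-gates of arbitrary fan-in and arbitrary gates. The vertices
of a circuit with `n` inputs and `s` gates are `Fin n ⊕ Fin s`.
-/

namespace Pool.Agent.Lib_MP_22d2c8_gen

/-- The label of a gate together with the finite set `P` of its predecessors. And-gates and
or-gates may have any number of predecessors. An arbitrary gate `arb P φ` computes an arbitrary
Boolean function of its predecessors: its value is `φ` of the set of the predecessors with value
true; a NOT gate is an arbitrary gate with one predecessor. -/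
inductive Op (V : Type) where
  | and (P : Finset V) : Op V
  | or (P : Finset V) : Op V
  | arb (P : Finset V) (φ : Finset V → Bool) : Op V

/-- The set of predecessors of a gate. -/
def Op.preds {V : Type} : Op V → Finset V
  | .and P => P
  | .or P => P
  | .arb P _ => P

/-- Is the gate an arbitrary gate? -/
def Op.isArb {V : Type} : Op V → Bool
  | .and _ => false
  | .or _ => false
  | .arb _ _ => true

/-- The value of a gate from the values of its predecessors. -/
def Op.eval {V : Type} (a : V → Bool) : Op V → Bool
  | .and P => decide (∀ u ∈ P, a u = true)
  | .or P => decide (∃ u ∈ P, a u = true)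
  | .arb P φ => φ (P.filter (fun u => a u = true))

/-- A Boolean circuit with `n` inputs, `s` gates and one output vertex; there is no directed
cycle (there is a numbering of the vertices which increases along every wire). -/
structure Circuit (n s : ℕ) where
  /-- the gates -/
  op : Fin s → Op (Fin n ⊕ Fin s)
  /-- the output vertex -/
  out : Fin n ⊕ Fin s
  /-- there is no directed cycle -/
  acyclic : ∃ rank : Fin n ⊕ Fin s → ℕ, ∀ g, ∀ u ∈ (op g).preds, rank u < rank (Sum.inr g)

namespace Circuit

variable {n s : ℕ}

/-- `a` is the assignment of values to the vertices for the input `x`. -/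
def IsRun (C : Circuit n s) (x : Fin n → Bool) (a : Fin n ⊕ Fin s → Bool) : Prop :=
  (∀ j, a (Sum.inl j) = x j) ∧ ∀ g, a (Sum.inr g) = (C.op g).eval a

/-- The circuit computes `f`: for every input `x` there is an assignment of values to the
vertices which agrees with `x` on the inputs, satisfies every gate and gives `f x` at the
output. -/
def Computes (C : Circuit n s) (f : (Fin n → Bool) → Bool) : Prop :=
  ∀ x : Fin n → Bool, ∃ a : Fin n ⊕ Fin s → Bool, C.IsRun x a ∧ a C.out = f x

/-- The circuit is monotone: it has only and-gates and or-gates. -/
def IsMonotone (C : Circuit n s) : Prop := ∀ g, (C.op g).isArb = false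

/-- The entry vertices: the predecessors of the arbitrary gates (for instance the vertices which
are negated by NOT gates). -/
def entry (C : Circuit n s) : Finset (Fin n ⊕ Fin s) :=
  (Finset.univ.filter (fun g => (C.op g).isArb = true)).biUnion (fun g => (C.op g).preds)

/-- The number of wires which enter arbitrary gates (the number of NOT gates if all the arbitrary
gates are NOT gates). -/
def entryWires (C : Circuit n s) : ℕ :=
  ∑ g ∈ Finset.univ.filter (fun g => (C.op g).isArb = true), (C.op g).preds.card

/-- Along every increasing chain of inputs the vector of the values of the entry vertices changes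
at most `T` times. -/
def EntryChangesLE (C : Circuit n s) (T : ℕ) : Prop :=
  ∀ (m : ℕ) (x : ℕ → Fin n → Bool) (a : ℕ → Fin n ⊕ Fin s → Bool),
    (∀ i < m, ∀ j, x i j = true → x (i + 1) j = true) → (∀ i ≤ m, C.IsRun (x i) (a i)) →
    ((Finset.range m).filter (fun i => ∃ u ∈ C.entry, a i u ≠ a (i + 1) u)).card ≤ T

/-- A level function with levels below `M` for the entry vertices: the level does not decrease
along wires, and it increases strictly along a wire which enters an arbitrary gate (so a path
with `k` arbitrary gates ends in a vertex of level at least `k`). -/
def IsLevel (C : Circuit n s) (M : ℕ) (lev : Fin n ⊕ Fin s → ℕ) : Prop :=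
  (∀ u ∈ C.entry, lev u < M) ∧
  (∀ g, ∀ u ∈ (C.op g).preds, lev u ≤ lev (Sum.inr g)) ∧
  (∀ g, (C.op g).isArb = true → ∀ u ∈ (C.op g).preds, lev u < lev (Sum.inr g))

/-- The product over the levels of one plus the number of entry vertices of the level. -/
def entryProd (C : Circuit n s) (M : ℕ) (lev : Fin n ⊕ Fin s → ℕ) : ℕ :=
  ∏ l ∈ Finset.range M, (1 + (C.entry.filter (fun u => lev u = l)).card)

end Circuit

end Pool.Agent.Lib_MP_22d2c8_gen
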