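import Mathlib

/-!
# The explicit function
-/

namespace Pool.Agent.Lib_MP_22d2c8_gen

/-- The least prime number that is at least `2 ^ j`. -/
noncomputable def prm (j : ℕ) : ℕ := Nat.find (Nat.exists_infinite_primes (2 ^ j))

/-- The number of coefficients of the polynomials used at scale `j`. -/
def deg (j : ℕ) : ℕ := Nat.sqrt (2 ^ j / (4 * (j + 2)))

/-- The length of a segment of an input of length `N`; there are `log₂ N + 1` segments. -/
def seg (N : ℕ) : ℕ := N / (Nat.log 2 N + 1)

/-- The `i`-th bit of the input (false if there is no such bit). -/
def bit {N : ℕ} (z : Fin N → Bool) (i : ℕ) : Bool := if h : i < N then z ⟨i, h⟩ else false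

/-- The `(u, v)` entry of the `b`-th block of the segment of scale `j` (segment number `j`);
the block is a square of side `prm j`. -/
noncomputable def pos (N j b u v : ℕ) : ℕ := j * seg N + b * prm j ^ 2 + u * prm j + v

open Classical in
/-- The explicit monotone function: the input of length `N` is divided into `log₂ N + 1` segments;
segment number `j` is divided into square blocks of side `q`, the least prime that is at least `2 ^ j`.
The value is true if some block contains the graph of a polynomial modulo `q` with `deg j`
coefficients. -/
noncomputable def polyBlocks (N : ℕ) (z : Fin N → Bool) : Bool :=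
  decide (∃ j ≤ Nat.log 2 N, ∃ b < seg N / prm j ^ 2, ∃ c : ℕ → ℕ, ∀ u < prm j,
    bit z (pos N j b u ((∑ i ∈ Finset.range (deg j), c i * u ^ i) % prm j)) = true)

end Pool.Agent.Lib_MP_22d2c8_gen
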