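import Pool.Agent.Lib_MP_22d2c8_gen.Poly
import Pool.Agent.Lib_MP_22d2c8_gen.Fun

/-!
# The explicit function
-/

namespace Pool.Agent.Lib_MP_22d2c8_gen

open Finset

theorem prm_prime (j : ℕ) : (prm j).Prime := (Nat.find_spec (Nat.exists_infinite_primes (2 ^ j))).2

theorem prm_ge (j : ℕ) : 2 ^ j ≤ prm j := (Nat.find_spec (Nat.exists_infinite_primes (2 ^ j))).1

theorem prm_le (j : ℕ) : prm j ≤ 2 ^ (j + 1) := by
  obtain ⟨p, hp, h1, h2⟩ := Nat.exists_prime_lt_and_le_two_mul (2 ^ j) (by positivity)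
  refine le_trans (Nat.find_min' _ ⟨h1.le, hp⟩) ?_
  rw [pow_succ]; omega

theorem deg_sq (j : ℕ) : 4 * (j + 2) * (deg j) ^ 2 ≤ 2 ^ j := by
  have h1 : (deg j) ^ 2 ≤ 2 ^ j / (4 * (j + 2)) := Nat.sqrt_le' _
  calc 4 * (j + 2) * (deg j) ^ 2 ≤ 4 * (j + 2) * (2 ^ j / (4 * (j + 2))) :=
        Nat.mul_le_mul_left _ h1
    _ ≤ 2 ^ j := Nat.mul_div_le _ _

theorem deg_lt (j : ℕ) : 2 ^ j < 4 * (j + 2) * (deg j + 1) ^ 2 := by
  have h1 : 2 ^ j / (4 * (j + 2)) < (deg j + 1) ^ 2 := Nat.lt_succ_sqrt' _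
  have h2 := (Nat.div_lt_iff_lt_mul (by omega : 0 < 4 * (j + 2))).mp h1
  rw [mul_comm]; exact h2

theorem off_lt {L q b u v : ℕ} (hb : b < L / q ^ 2) (hu : u < q) (hv : v < q) :
    b * q ^ 2 + u * q + v < L := by
  have h1 : (b + 1) * q ^ 2 ≤ L := by
    have hq : 0 < q ^ 2 := by
      have : 0 < q := by omega
      positivity
    exact (Nat.le_div_iff_mul_le hq).mp hb
  have h2 : u * q + v < q ^ 2 := by
    have : (u + 1) * q ≤ q * q := Nat.mul_le_mul_right _ hu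
    nlinarith
  nlinarith

theorem pos_lt {N j b u v : ℕ} (hj : j ≤ Nat.log 2 N) (hb : b < seg N / prm j ^ 2)
    (hu : u < prm j) (hv : v < prm j) : pos N j b u v < N := by
  have h1 := off_lt hb hu hv
  have h2 : (Nat.log 2 N + 1) * seg N ≤ N := Nat.mul_div_le _ _
  have h3 : (j + 1) * seg N ≤ (Nat.log 2 N + 1) * seg N :=
    Nat.mul_le_mul_right _ (by omega)
  unfold pos
  nlinarith

theorem pos_inj {N j b u v j' b' u' v' : ℕ} (hb : b < seg N / prm j ^ 2)
    (hu : u < prm j) (hv : v < prm j) (hb' : b' < seg N / prm j' ^ 2)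
    (hu' : u' < prm j') (hv' : v' < prm j') (h : pos N j b u v = pos N j' b' u' v') :
    j = j' ∧ b = b' ∧ u = u' ∧ v = v' := by
  have h1 := off_lt hb hu hv
  have h1' := off_lt hb' hu' hv'
  have hj : j = j' := by
    unfold pos at h
    rcases lt_trichotomy j j' with hlt | heq | hlt
    · have : (j + 1) * seg N ≤ j' * seg N := Nat.mul_le_mul_right _ hlt
      nlinarith
    · exact heq
    · have : (j' + 1) * seg N ≤ j * seg N := Nat.mul_le_mul_right _ hlt
      nlinarith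
  subst hj
  unfold pos at h
  have h2 : b * prm j ^ 2 + u * prm j + v = b' * prm j ^ 2 + u' * prm j + v' := by omega
  have hq0 : 0 < prm j := by omega
  have e1 : b * prm j ^ 2 + u * prm j + v = prm j * (b * prm j + u) + v := by ring
  have e2 : b' * prm j ^ 2 + u' * prm j + v' = prm j * (b' * prm j + u') + v' := by ring
  rw [e1, e2] at h2
  have hv2 : v = v' := by
    have := congrArg (· % prm j) h2
    simpa [Nat.mul_add_mod, Nat.mod_eq_of_lt hv, Nat.mod_eq_of_lt hv'] using this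
  subst hv2
  have h3 : b * prm j + u = b' * prm j + u' := by
    have : prm j * (b * prm j + u) = prm j * (b' * prm j + u') := by omega
    exact Nat.eq_of_mul_eq_mul_left hq0 this
  have e3 : b * prm j + u = prm j * b + u := by ring
  have e4 : b' * prm j + u' = prm j * b' + u' := by ring
  rw [e3, e4] at h3
  have hu2 : u = u' := by
    have := congrArg (· % prm j) h3
    simpa [Nat.mul_add_mod, Nat.mod_eq_of_lt hu, Nat.mod_eq_of_lt hu'] using this
  subst hu2
  refine ⟨rfl, ?_, rfl, rfl⟩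
  have : prm j * b = prm j * b' := by omega
  exact Nat.eq_of_mul_eq_mul_left hq0 this

theorem polyBlocks_iff (N : ℕ) (z : Fin N → Bool) : polyBlocks N z = true ↔
    ∃ j ≤ Nat.log 2 N, ∃ b < seg N / prm j ^ 2, ∃ c : ℕ → ℕ, ∀ u < prm j,
    bit z (pos N j b u ((∑ i ∈ Finset.range (deg j), c i * u ^ i) % prm j)) = true := by
  classical
  unfold polyBlocks
  exact decide_eq_true_iff

/-- the function is monotone -/
theorem polyBlocks_mono (N : ℕ) (z z' : Fin N → Bool) (h : ∀ i, z i = true → z' i = true)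
    (hz : polyBlocks N z = true) : polyBlocks N z' = true := by
  rw [polyBlocks_iff] at hz ⊢
  obtain ⟨j, hj, b, hb, c, hc⟩ := hz
  refine ⟨j, hj, b, hb, c, fun u hu => ?_⟩
  have := hc u hu
  unfold bit at this ⊢
  split_ifs at this ⊢ with hlt
  exact h _ this

/-- the embedding of the blocks of scale `j` -/
noncomputable def emb (N j : ℕ) (hj : j ≤ Nat.log 2 N) (b : Fin (seg N / prm j ^ 2))
    (r : Fin (prm j * prm j)) : Fin N :=
  ⟨pos N j b (finProdFinEquiv.symm r).1 (finProdFinEquiv.symm r).2,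
    pos_lt hj b.2 (finProdFinEquiv.symm r).1.2 (finProdFinEquiv.symm r).2.2⟩

theorem emb_disj (N j : ℕ) (hj : j ≤ Nat.log 2 N) : Disj (emb N j hj) := by
  intro b b' r r' h
  have h1 := congrArg Fin.val h
  simp only [emb] at h1
  obtain ⟨-, h2, h3, h4⟩ := pos_inj b.2 (finProdFinEquiv.symm r).1.2 (finProdFinEquiv.symm r).2.2
    b'.2 (finProdFinEquiv.symm r').1.2 (finProdFinEquiv.symm r').2.2 h1
  exact ⟨Fin.ext h2, finProdFinEquiv.symm.injective (Prod.ext (Fin.ext h3) (Fin.ext h4))⟩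

theorem polyBlocks_cfg (N j : ℕ) (hj : j ≤ Nat.log 2 N)
    (x : Fin (seg N / prm j ^ 2) → Fin (prm j * prm j) → Bool) :
    polyBlocks N (cfg (emb N j hj) x) = true ↔ ∃ b, blockFun (prm j) (deg j) (x b) = true := by
  have hq0 : 0 < prm j := (prm_prime j).pos
  simp only [blockFun_iff]
  rw [polyBlocks_iff]
  constructor
  · rintro ⟨j', hj', b', hb', c, hc⟩
    have hq0' : 0 < prm j' := (prm_prime j').pos
    have key : ∀ u, u < prm j' → ∃ b : Fin (seg N / prm j ^ 2), ∃ r, x b r = true ∧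
        pos N j b (finProdFinEquiv.symm r).1 (finProdFinEquiv.symm r).2 =
          pos N j' b' u ((∑ i ∈ Finset.range (deg j'), c i * u ^ i) % prm j') := by
      intro u hu
      have h1 := hc u hu
      unfold bit at h1
      split_ifs at h1 with hlt
      unfold cfg at h1
      rw [decide_eq_true_eq] at h1
      obtain ⟨b, r, hr, h2⟩ := h1
      exact ⟨b, r, hr, congrArg Fin.val h2⟩
    have hjj : j = j' := by
      obtain ⟨b, r, hr, h1⟩ := key 0 hq0'
      exact (pos_inj b.2 (finProdFinEquiv.symm r).1.2 (finProdFinEquiv.symm r).2.2 hb' hq0'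
        (Nat.mod_lt _ hq0') h1).1
    subst hjj
    refine ⟨⟨b', hb'⟩, fun i => ⟨c i % prm j, Nat.mod_lt _ hq0⟩, ?_⟩
    intro r hr
    have hr2 : (r.2 : ℕ) = pval (prm j) (deg j)
        (fun i => ⟨c i % prm j, Nat.mod_lt _ hq0⟩) r.1 := (Finset.mem_filter.mp hr).2
    obtain ⟨b, r', hr', h1⟩ := key r.1 r.1.2
    obtain ⟨-, h2, h3, h4⟩ := pos_inj b.2 (finProdFinEquiv.symm r').1.2
      (finProdFinEquiv.symm r').2.2 hb' r.1.2 (Nat.mod_lt _ hq0) h1
    have hval : (∑ i ∈ Finset.range (deg j), c i * (r.1 : ℕ) ^ i) % prm j = (r.2 : ℕ) := by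
      rw [hr2]
      unfold pval
      rw [← Fin.sum_univ_eq_sum_range (fun i => c i * (r.1 : ℕ) ^ i) (deg j)]
      rw [Finset.sum_nat_mod, Finset.sum_nat_mod (s := Finset.univ)
        (f := fun i : Fin (deg j) => ((⟨c i % prm j, Nat.mod_lt _ hq0⟩ : Fin (prm j)) : ℕ) *
          (r.1 : ℕ) ^ (i : ℕ))]
      congr 1
      refine Finset.sum_congr rfl fun i _ => ?_
      rw [Nat.mul_mod (c i)]
      conv_rhs => rw [Nat.mul_mod]
      simp only [Nat.mod_mod]
    have hb : b = ⟨b', hb'⟩ := Fin.ext h2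
    have hrr : r' = finProdFinEquiv r := by
      rw [← Equiv.symm_apply_eq]
      refine Prod.ext (Fin.ext h3) (Fin.ext ?_)
      rw [h4, hval]
    rw [← hb, ← hrr]
    exact hr'
  · rintro ⟨b, a, hba⟩
    refine ⟨j, hj, b, b.2, fun i => if h : i < deg j then (a ⟨i, h⟩ : ℕ) else 0,
      fun u hu => ?_⟩
    have hsum : (∑ i ∈ Finset.range (deg j), (if h : i < deg j then (a ⟨i, h⟩ : ℕ) else 0) *
        u ^ i) % prm j = pval (prm j) (deg j) a u := by
      unfold pval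
      rw [← Fin.sum_univ_eq_sum_range
        (fun i => (if h : i < deg j then (a ⟨i, h⟩ : ℕ) else 0) * u ^ i) (deg j)]
      congr 1
      refine Finset.sum_congr rfl fun i _ => ?_
      rw [dif_pos i.2]
    rw [hsum]
    have hv : pval (prm j) (deg j) a u < prm j := Nat.mod_lt _ hq0
    unfold bit
    rw [dif_pos (pos_lt hj b.2 hu hv)]
    unfold cfg
    rw [decide_eq_true_eq]
    refine ⟨b, finProdFinEquiv (⟨u, hu⟩, ⟨_, hv⟩), hba _ ?_, ?_⟩
    · unfold graph
      rw [Finset.mem_filter]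
      exact ⟨Finset.mem_univ _, rfl⟩
    · apply Fin.ext
      simp only [emb, Equiv.symm_apply_apply]

/-- The main bound. -/
theorem main_bound (N s : ℕ) (C : Circuit N s) (hC : C.Computes (polyBlocks N)) (T : ℕ)
    (hT : C.EntryChangesLE T) (hN : 2048 ≤ Nat.log 2 N)
    (hP : (T + 1) * Nat.log 2 N ^ 20 ≤ N) (k : ℕ)
    (hk : k ^ 5 * (T + 1) ≤ N) : 2 ^ k < s := by
  set l := Nat.log 2 N with hl
  set Q := T + 1 with hQ
  have hQ0 : 0 < Q := by omega
  set L := seg N with hL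
  have hLN : N < (L + 1) * (l + 1) := by
    have : N / (l + 1) < L + 1 := Nat.lt_succ_self _
    exact (Nat.div_lt_iff_lt_mul (by omega)).mp this
  set R := L / Q with hR
  have hL1 : 16 * Q ≤ L := by
    by_contra hcon
    push Not at hcon
    have h1 : N < (16 * Q) * (l + 1) := lt_of_lt_of_le hLN (Nat.mul_le_mul_right _ hcon)
    have h2 : Q * l ^ 20 < Q * (16 * (l + 1)) := by
      calc Q * l ^ 20 ≤ N := hP
        _ < (16 * Q) * (l + 1) := h1
        _ = Q * (16 * (l + 1)) := by ring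
    have h3 : l ^ 20 < 16 * (l + 1) := Nat.lt_of_mul_lt_mul_left h2
    have h4 : l ^ 2 ≤ l ^ 20 := Nat.pow_le_pow_right (by omega) (by norm_num)
    nlinarith
  have hR16 : 16 ≤ R := (Nat.le_div_iff_mul_le hQ0).mpr hL1
  obtain ⟨j, hj⟩ : ∃ j, Nat.log 4 R = j + 1 := by
    have : 1 ≤ Nat.log 4 R := Nat.le_log_of_pow_le (by norm_num) (by omega)
    exact ⟨Nat.log 4 R - 1, by omega⟩
  have h4R : 4 ^ (j + 1) ≤ R := by rw [← hj]; exact Nat.pow_log_le_self 4 (by omega)
  have hR4 : R < 4 ^ (j + 2) := by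
    have := Nat.lt_pow_succ_log_self (b := 4) (by norm_num) R
    rw [hj] at this; exact this
  have hRL : R * Q ≤ L := Nat.div_mul_le_self _ _
  have hLR : L < 4 ^ (j + 2) * Q := (Nat.div_lt_iff_lt_mul hQ0).mp hR4
  have hjl : j ≤ l := by
    have h1 : 2 ^ j ≤ N := by
      calc 2 ^ j ≤ 4 ^ (j + 1) :=
            (Nat.pow_le_pow_left (by norm_num) j).trans (Nat.pow_le_pow_right (by norm_num)
              (by omega))
        _ ≤ R := h4R
        _ ≤ L := Nat.div_le_self _ _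
        _ ≤ N := Nat.div_le_self _ _
    exact Nat.le_log_of_pow_le (by norm_num) h1
  set d := deg j with hd
  have hup : N < 256 * (l + 2) ^ 3 * (d + 1) ^ 4 * Q := by
    have h2j := deg_lt j
    rw [← hd] at h2j
    have e1 : 4 ^ (j + 2) = 16 * (2 ^ j) ^ 2 := by
      rw [← pow_mul, mul_comm j 2, pow_mul, pow_add]; norm_num; ring
    have e2 : (2 ^ j) ^ 2 ≤ (4 * (l + 2) * (d + 1) ^ 2) ^ 2 := by
      apply Nat.pow_le_pow_left
      refine h2j.le.trans ?_
      gcongr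
    calc N < (L + 1) * (l + 1) := hLN
      _ ≤ (4 ^ (j + 2) * Q) * (l + 1) := Nat.mul_le_mul_right _ hLR
      _ ≤ ((16 * (4 * (l + 2) * (d + 1) ^ 2) ^ 2) * Q) * (l + 2) := by
          rw [e1]; gcongr; omega
      _ = 256 * (l + 2) ^ 3 * (d + 1) ^ 4 * Q := by ring
  have hl2 : l + 2 ≤ 2 * l := by omega
  have hl20 : l ^ 20 < 256 * (l + 2) ^ 3 * (d + 1) ^ 4 := by
    have : l ^ 20 * Q < (256 * (l + 2) ^ 3 * (d + 1) ^ 4) * Q := by
      rw [mul_comm (l ^ 20)]; exact lt_of_le_of_lt hP hup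
    exact Nat.lt_of_mul_lt_mul_right this
  have hd2 : 2 ≤ d := by
    by_contra hcon
    have h1 : (d + 1) ^ 4 ≤ 2 ^ 4 := Nat.pow_le_pow_left (by omega) 4
    have h2 : 256 * (l + 2) ^ 3 * (d + 1) ^ 4 ≤ 256 * (2 * l) ^ 3 * 2 ^ 4 := by gcongr
    have h3 : 256 * (2 * l) ^ 3 * 2 ^ 4 = 32768 * l ^ 3 := by ring
    have h4 : 2048 ^ 2 * l ^ 3 ≤ l ^ 20 := by
      calc 2048 ^ 2 * l ^ 3 ≤ l ^ 2 * l ^ 3 := by gcongr
        _ = l ^ 5 := by ring
        _ ≤ l ^ 20 := Nat.pow_le_pow_right (by omega) (by norm_num)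
    omega
  by_contra hs
  push Not at hs
  -- the circuit is larger than `4 ^ d`
  have hbig : 4 ^ d < s + 3 := by
    have h2 : prm j ^ 2 ≤ R := by
      calc prm j ^ 2 ≤ (2 ^ (j + 1)) ^ 2 := Nat.pow_le_pow_left (prm_le j) 2
        _ = 4 ^ (j + 1) := by rw [← pow_mul, mul_comm (j + 1) 2, pow_mul]; norm_num
        _ ≤ R := h4R
    have h3 : Q ≤ seg N / prm j ^ 2 := by
      have hpos : 0 < prm j ^ 2 := by
        have := (prm_prime j).pos
        positivity
      rw [Nat.le_div_iff_mul_le hpos]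
      calc Q * prm j ^ 2 ≤ Q * R := Nat.mul_le_mul_left _ h2
        _ = R * Q := mul_comm _ _
        _ ≤ L := hRL
    exact poly_bound C (polyBlocks N) hC T hT (prm j) d j (prm_prime j) hd2
      (deg_sq j) (prm_ge j) (prm_le j) (emb N j hjl) (emb_disj N j hjl) (polyBlocks_cfg N j hjl)
      (by omega)
  have hdk : 2 * d ≤ k := by
    by_contra hcon
    have h1 : 2 ^ (k + 1) ≤ 2 ^ (2 * d) := Nat.pow_le_pow_right (by norm_num) (by omega)
    have h2 : 4 ^ d = 2 ^ (2 * d) := by rw [pow_mul]; norm_num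
    have h3 : 2 ^ (k + 1) = 2 ^ k + 2 ^ k := by rw [pow_succ]; ring
    have h4 : 2 ^ 4 ≤ 2 ^ (2 * d) := Nat.pow_le_pow_right (by norm_num) (by omega)
    rw [h2] at hbig
    have h5 : 2 ^ k < 3 := by omega
    omega
  have hdk' : d + 1 ≤ k := by omega
  have hk1 : k < 256 * (l + 2) ^ 3 := by
    have h1 : k ^ 5 * Q < 256 * (l + 2) ^ 3 * k ^ 4 * Q := by
      refine lt_of_le_of_lt hk (lt_of_lt_of_le hup ?_)
      gcongr
    have h2 : k ^ 5 < 256 * (l + 2) ^ 3 * k ^ 4 := Nat.lt_of_mul_lt_mul_right h1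
    have h3 : k * k ^ 4 < 256 * (l + 2) ^ 3 * k ^ 4 := by
      calc k * k ^ 4 = k ^ 5 := by ring
        _ < _ := h2
    exact Nat.lt_of_mul_lt_mul_right h3
  have hfin : l ^ 20 < 2 ^ 55 * l ^ 15 := by
    calc l ^ 20 < 256 * (l + 2) ^ 3 * (d + 1) ^ 4 := hl20
      _ ≤ 256 * (l + 2) ^ 3 * (256 * (l + 2) ^ 3) ^ 4 := by
          gcongr
          omega
      _ ≤ 256 * (2 * l) ^ 3 * (256 * (2 * l) ^ 3) ^ 4 := by gcongr
      _ = 2 ^ 55 * l ^ 15 := by ring
  have h5 : 2048 ^ 5 ≤ l ^ 5 := Nat.pow_le_pow_left hN 5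
  have h6 : (2048 : ℕ) ^ 5 = 2 ^ 55 := by norm_num
  have h7 : 2 ^ 55 * l ^ 15 ≤ l ^ 20 := by
    calc 2 ^ 55 * l ^ 15 ≤ l ^ 5 * l ^ 15 := by rw [← h6]; gcongr
      _ = l ^ 20 := by ring
  omega

theorem entryProd_pos {n s : ℕ} (C : Circuit n s) (M : ℕ) (lev : Fin n ⊕ Fin s → ℕ) :
    0 < C.entryProd M lev := by
  unfold Circuit.entryProd
  exact Finset.prod_pos fun _ _ => by omega

/-- The bound in terms of levels. -/
theorem level_bound (N s : ℕ) (C : Circuit N s) (hC : C.Computes (polyBlocks N)) (M : ℕ)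
    (lev : Fin N ⊕ Fin s → ℕ) (hlev : C.IsLevel M lev) (hN : 2048 ≤ Nat.log 2 N)
    (hP : C.entryProd M lev * Nat.log 2 N ^ 20 ≤ N) (k : ℕ)
    (hk : k ^ 5 * C.entryProd M lev ≤ N) : 2 ^ k < s := by
  have h0 := entryProd_pos C M lev
  have h1 : C.entryProd M lev - 1 + 1 = C.entryProd M lev := by omega
  exact main_bound N s C hC (C.entryProd M lev - 1) (changes_of_level C M lev hlev) hN
    (by rw [h1]; exact hP) k (by rw [h1]; exact hk)

/-- The bound in terms of the number of entry vertices. -/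
theorem entry_bound (N s : ℕ) (C : Circuit N s) (hC : C.Computes (polyBlocks N))
    (hN : 2048 ≤ Nat.log 2 N) (hP : 2 ^ C.entry.card * Nat.log 2 N ^ 20 ≤ N) (k : ℕ)
    (hk : k ^ 5 * 2 ^ C.entry.card ≤ N) : 2 ^ k < s := by
  obtain ⟨M, lev, hlev⟩ := exists_level C
  have h1 := entryProd_le C M lev hlev
  exact level_bound N s C hC M lev hlev hN ((Nat.mul_le_mul_right _ h1).trans hP) k
    ((Nat.mul_le_mul_left _ h1).trans hk)

end Pool.Agent.Lib_MP_22d2c8_gen
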