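import Pool.Agent.Lib_MP_22d2c8_gen.Defs

/-!
# Runs and frozen circuits
-/

namespace Pool.Agent.Lib_MP_22d2c8_gen

open Finset

/-- The value of a gate depends only on its predecessors. -/
theorem eval_congr {V : Type} (o : Op V) {a b : V → Bool} (h : ∀ u ∈ o.preds, a u = b u) :
    o.eval a = o.eval b := by
  rcases o with Q | Q | ⟨Q, φ⟩
  · simp only [Op.eval]
    congr 1
    apply propext
    constructor
    · intro h' u hu
      rw [← h u hu]
      exact h' u hu
    · intro h' u hu
      rw [h u hu]
      exact h' u hu
  · simp only [Op.eval]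
    congr 1
    apply propext
    constructor
    · rintro ⟨u, hu, h'⟩
      exact ⟨u, hu, by rw [← h u hu]; exact h'⟩
    · rintro ⟨u, hu, h'⟩
      exact ⟨u, hu, by rw [h u hu]; exact h'⟩
  · simp only [Op.eval]
    congr 1
    apply Finset.filter_congr
    intro u hu
    rw [h u hu]

/-- And-gates and or-gates are monotone. -/
theorem eval_mono {V : Type} (o : Op V) (ho : o.isArb = false) {a b : V → Bool}
    (h : ∀ u ∈ o.preds, a u = true → b u = true) (h1 : o.eval a = true) : o.eval b = true := by
  rcases o with Q | Q | ⟨Q, φ⟩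
  · simp only [Op.eval, decide_eq_true_eq] at h1 ⊢
    exact fun u hu => h u hu (h1 u hu)
  · simp only [Op.eval, decide_eq_true_eq] at h1 ⊢
    obtain ⟨u, hu, h3⟩ := h1
    exact ⟨u, hu, h u hu h3⟩
  · exact absurd ho (by simp [Op.isArb])

theorem run_unique {n s : ℕ} (C : Circuit n s) {x : Fin n → Bool} {a b : Fin n ⊕ Fin s → Bool}
    (ha : C.IsRun x a) (hb : C.IsRun x b) : a = b := by
  obtain ⟨rank, hrank⟩ := C.acyclic
  have main : ∀ k, ∀ v, rank v = k → a v = b v := by
    intro k
    induction k using Nat.strong_induction_on with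
    | _ k ih =>
      intro v hv
      rcases v with j | g
      · rw [ha.1 j, hb.1 j]
      · rw [ha.2 g, hb.2 g]
        exact eval_congr _ fun u hu => ih (rank u) (by rw [← hv]; exact hrank g u hu) u rfl
  funext v
  exact main _ v rfl

/-- The frozen circuit: arbitrary gates have constant values `κ`. -/
structure Frozen {n s : ℕ} (C : Circuit n s) (κ : Fin s → Bool) (x : Fin n → Bool)
    (a : Fin n ⊕ Fin s → Bool) : Prop where
  inp : ∀ j, a (Sum.inl j) = x j
  nt : ∀ g, (C.op g).isArb = true → a (Sum.inr g) = κ g
  gt : ∀ g, (C.op g).isArb = false → a (Sum.inr g) = (C.op g).eval a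

/-- The frozen circuit can be evaluated. -/
theorem exists_frozen {n s : ℕ} (C : Circuit n s) (κ : Fin s → Bool) (x : Fin n → Bool) :
    ∃ a, Frozen C κ x a := by
  classical
  obtain ⟨rank, hrank⟩ := C.acyclic
  let F : (v : Fin n ⊕ Fin s) → ((u : Fin n ⊕ Fin s) → rank u < rank v → Bool) → Bool :=
    fun v ih => match v, ih with
      | Sum.inl j, _ => x j
      | Sum.inr g, ih => if (C.op g).isArb = true then κ g else
          (C.op g).eval (fun u => if h : u ∈ (C.op g).preds then ih u (hrank g u h) else false)
  let a := WellFounded.fix (measure rank).wf F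
  refine ⟨a, ?_, ?_, ?_⟩
  · intro j
    show WellFounded.fix (measure rank).wf F (Sum.inl j) = _
    rw [WellFounded.fix_eq]
  · intro g hg
    show WellFounded.fix (measure rank).wf F (Sum.inr g) = _
    rw [WellFounded.fix_eq]
    simp only [F]
    rw [if_pos hg]
  · intro g hg
    have h1 : a (Sum.inr g) = if (C.op g).isArb = true then κ g else
        (C.op g).eval (fun u => if h : u ∈ (C.op g).preds then a u else false) := by
      show WellFounded.fix (measure rank).wf F (Sum.inr g) = _
      rw [WellFounded.fix_eq]
    rw [h1, if_neg (by rw [hg]; simp)]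
    apply eval_congr
    intro u hu
    rw [dif_pos hu]

/-- Every circuit can be evaluated. -/
theorem exists_run {n s : ℕ} (C : Circuit n s) (x : Fin n → Bool) : ∃ a, C.IsRun x a := by
  classical
  obtain ⟨rank, hrank⟩ := C.acyclic
  let F : (v : Fin n ⊕ Fin s) → ((u : Fin n ⊕ Fin s) → rank u < rank v → Bool) → Bool :=
    fun v ih => match v, ih with
      | Sum.inl j, _ => x j
      | Sum.inr g, ih =>
          (C.op g).eval (fun u => if h : u ∈ (C.op g).preds then ih u (hrank g u h) else false)
  let a := WellFounded.fix (measure rank).wf F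
  refine ⟨a, ?_, ?_⟩
  · intro j
    show WellFounded.fix (measure rank).wf F (Sum.inl j) = _
    rw [WellFounded.fix_eq]
  · intro g
    have h1 : a (Sum.inr g) =
        (C.op g).eval (fun u => if h : u ∈ (C.op g).preds then a u else false) := by
      show WellFounded.fix (measure rank).wf F (Sum.inr g) = _
      rw [WellFounded.fix_eq]
    rw [h1]
    apply eval_congr
    intro u hu
    rw [dif_pos hu]

/-- Frozen circuits are monotone. -/
theorem frozen_mono {n s : ℕ} (C : Circuit n s) (κ : Fin s → Bool) {x x' : Fin n → Bool}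
    {a a' : Fin n ⊕ Fin s → Bool} (h : Frozen C κ x a) (h' : Frozen C κ x' a')
    (hx : ∀ j, x j = true → x' j = true) : ∀ v, a v = true → a' v = true := by
  obtain ⟨rank, hrank⟩ := C.acyclic
  have main : ∀ k, ∀ v, rank v = k → a v = true → a' v = true := by
    intro k
    induction k using Nat.strong_induction_on with
    | _ k ih =>
      intro v hv hav
      rcases v with j | g
      · rw [h.inp j] at hav
        rw [h'.inp j]
        exact hx j hav
      · have hpre : ∀ u ∈ (C.op g).preds, a u = true → a' u = true := fun u hu =>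
          ih (rank u) (by rw [← hv]; exact hrank g u hu) u rfl
        cases hg : (C.op g).isArb with
        | true =>
          rw [h.nt g hg] at hav
          rw [h'.nt g hg]
          exact hav
        | false =>
          rw [h.gt g hg] at hav
          rw [h'.gt g hg]
          exact eval_mono _ hg hpre hav
  exact fun v => main _ v rfl

theorem frozen_unique {n s : ℕ} (C : Circuit n s) (κ : Fin s → Bool) {x : Fin n → Bool}
    {a a' : Fin n ⊕ Fin s → Bool} (h : Frozen C κ x a) (h' : Frozen C κ x a') : a = a' := by
  funext v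
  have h1 := frozen_mono C κ h h' (fun _ h => h) v
  have h2 := frozen_mono C κ h' h (fun _ h => h) v
  cases ha : a v <;> cases ha' : a' v <;> simp_all

theorem mem_entry {n s : ℕ} (C : Circuit n s) (u : Fin n ⊕ Fin s) :
    u ∈ C.entry ↔ ∃ g, (C.op g).isArb = true ∧ u ∈ (C.op g).preds := by
  unfold Circuit.entry
  simp only [Finset.mem_biUnion, Finset.mem_filter, Finset.mem_univ, true_and]

/-- A special vertex: if the frozen circuit and the circuit differ above `Z` then an entry vertex
with value false at `Z` has value true. -/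
theorem frozen_is_run {n s : ℕ} (C : Circuit n s) {Z x : Fin n → Bool}
    {a0 a : Fin n ⊕ Fin s → Bool} (h0 : C.IsRun Z a0)
    (hx : ∀ j, Z j = true → x j = true)
    (ha : Frozen C (fun g => a0 (Sum.inr g)) x a)
    (hent : ∀ u ∈ C.entry, a0 u = false → a u = false) : C.IsRun x a := by
  have h0F : Frozen C (fun g => a0 (Sum.inr g)) Z a0 :=
    ⟨h0.1, fun g _ => rfl, fun g _ => h0.2 g⟩
  have hmono := frozen_mono C _ h0F ha hx
  refine ⟨ha.inp, fun g => ?_⟩
  cases hg : (C.op g).isArb with
  | false => exact ha.gt g hg
  | true =>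
    rw [ha.nt g hg]
    show a0 (Sum.inr g) = _
    rw [h0.2 g]
    apply eval_congr
    intro u hu
    cases hu0 : a0 u with
    | true => exact (hmono u hu0).symm
    | false => exact (hent u ((mem_entry C u).mpr ⟨g, hg, hu⟩) hu0).symm

/-- If the values of the entry vertices are the same then the run is the frozen run. -/
theorem run_is_frozen {n s : ℕ} (C : Circuit n s) {Z x : Fin n → Bool}
    {a0 a : Fin n ⊕ Fin s → Bool} (h0 : C.IsRun Z a0) (ha : C.IsRun x a)
    (hent : ∀ u ∈ C.entry, a u = a0 u) : Frozen C (fun g => a0 (Sum.inr g)) x a := by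
  refine ⟨ha.1, fun g hg => ?_, fun g _ => ha.2 g⟩
  show a (Sum.inr g) = a0 (Sum.inr g)
  rw [ha.2 g, h0.2 g]
  exact eval_congr _ fun u hu => hent u ((mem_entry C u).mpr ⟨g, hg, hu⟩)

end Pool.Agent.Lib_MP_22d2c8_gen
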