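import Pool.Agent.Lib_MP_22d2c8_gen.Frozen

/-!
# Levels: the vector of the entry vertices increases lexicographically
-/

namespace Pool.Agent.Lib_MP_22d2c8_gen

open Finset

/-- The number of entry vertices with value true on every level. -/
def wv {n s : ℕ} (C : Circuit n s) (M : ℕ) (lev : Fin n ⊕ Fin s → ℕ)
    (a : Fin n ⊕ Fin s → Bool) : Fin M → ℕ :=
  fun l => ((C.entry.filter (fun u => lev u = l)).filter (fun u => a u = true)).card

theorem wv_lt {n s : ℕ} (C : Circuit n s) (M : ℕ) (lev : Fin n ⊕ Fin s → ℕ)
    (hlev : C.IsLevel M lev) {x x' : Fin n → Bool} (hx : ∀ j, x j = true → x' j = true)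
    {a a' : Fin n ⊕ Fin s → Bool} (ha : C.IsRun x a) (ha' : C.IsRun x' a')
    (hne : ∃ u ∈ C.entry, a' u ≠ a u) :
    toLex (wv C M lev a) < toLex (wv C M lev a') := by
  classical
  have hex : ∃ l, ∃ u ∈ C.entry, lev u = l ∧ a' u ≠ a u := by
    obtain ⟨g, hg, h⟩ := hne
    exact ⟨_, g, hg, rfl, h⟩
  obtain ⟨u0, hu0, hl0, hne0⟩ := Nat.find_spec hex
  set l := Nat.find hex with hl
  have hmin : ∀ u ∈ C.entry, lev u < l → a' u = a u := by
    intro g hg hgl
    by_contra hcon
    exact Nat.find_min hex hgl ⟨g, hg, rfl, hcon⟩
  have hlM : l < M := by rw [← hl0]; exact hlev.1 _ hu0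
  obtain ⟨rank, hrank⟩ := C.acyclic
  have hmono : ∀ k, ∀ v, rank v = k → lev v ≤ l → a v = true → a' v = true := by
    intro k
    induction k using Nat.strong_induction_on with
    | _ k ih =>
      intro v hv hvl hav
      rcases v with j | g
      · rw [ha.1 j] at hav
        rw [ha'.1 j]
        exact hx j hav
      · cases hg : (C.op g).isArb with
        | false =>
          rw [ha.2 g] at hav
          rw [ha'.2 g]
          exact eval_mono _ hg (fun u hu =>
            ih (rank u) (by rw [← hv]; exact hrank g u hu) u rfl
              ((hlev.2.1 g u hu).trans hvl)) hav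
        | true =>
          rw [ha.2 g] at hav
          rw [ha'.2 g]
          rw [← hav]
          apply eval_congr
          intro u hu
          exact hmin u ((mem_entry C u).mpr ⟨g, hg, hu⟩)
            (lt_of_lt_of_le (hlev.2.2 g hg u hu) hvl)
  refine ⟨⟨l, hlM⟩, ?_, ?_⟩
  · intro j hj
    show wv C M lev a j = wv C M lev a' j
    unfold wv
    congr 1
    apply Finset.filter_congr
    intro g hg
    rw [Finset.mem_filter] at hg
    have hjl : (j : ℕ) < l := hj
    rw [hmin g hg.1 (by rw [hg.2]; exact hjl)]
  · show wv C M lev a ⟨l, hlM⟩ < wv C M lev a' ⟨l, hlM⟩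
    unfold wv
    apply Finset.card_lt_card
    rw [Finset.ssubset_iff_of_subset]
    · refine ⟨u0, ?_, ?_⟩
      · rw [Finset.mem_filter, Finset.mem_filter]
        refine ⟨⟨hu0, hl0⟩, ?_⟩
        cases h1 : a' u0 with
        | true => rfl
        | false =>
          cases h2 : a u0 with
          | false => exact absurd (h1.trans h2.symm) hne0
          | true =>
            rw [← h1]
            exact hmono _ u0 rfl hl0.le h2
      · rw [Finset.mem_filter, Finset.mem_filter]
        rintro ⟨_, h2⟩
        exact hne0 ((hmono _ u0 rfl hl0.le h2).trans h2.symm)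
    · intro g hg
      rw [Finset.mem_filter, Finset.mem_filter] at hg ⊢
      exact ⟨hg.1, hmono _ g rfl hg.1.2.le hg.2⟩

/-- The number of changes of the entry vertices is at most the product over the levels,
minus one. -/
theorem changes_of_level {n s : ℕ} (C : Circuit n s) (M : ℕ) (lev : Fin n ⊕ Fin s → ℕ)
    (hlev : C.IsLevel M lev) : C.EntryChangesLE (C.entryProd M lev - 1) := by
  classical
  intro m x a hx ha
  set box : Finset (Fin M → ℕ) := Fintype.piFinset (fun l : Fin M =>
    Finset.range (1 + (C.entry.filter (fun u => lev u = l)).card)) with hbox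
  have hmem : ∀ a, wv C M lev a ∈ box := by
    intro a
    rw [hbox, Fintype.mem_piFinset]
    intro l
    rw [Finset.mem_range]
    have := Finset.card_filter_le (C.entry.filter (fun u => lev u = (l : ℕ)))
      (fun u => a u = true)
    unfold wv
    omega
  have h2 : box.card = C.entryProd M lev := by
    rw [hbox, Fintype.card_piFinset]
    unfold Circuit.entryProd
    rw [Finset.prod_range]
    refine Finset.prod_congr rfl fun l _ => ?_
    rw [Finset.card_range]
  have main : ∀ k, k ≤ m → ((Finset.range k).filter
      (fun i => ∃ u ∈ C.entry, a i u ≠ a (i + 1) u)).card ≤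
      (box.filter (fun r => toLex r < toLex (wv C M lev (a k)))).card := by
    intro k
    induction k with
    | zero => intro _; simp
    | succ k ih =>
      intro hk
      have ih' := ih (by omega)
      rw [Finset.range_add_one, Finset.filter_insert]
      by_cases hch : ∃ u ∈ C.entry, a k u ≠ a (k + 1) u
      · rw [if_pos hch, Finset.card_insert_of_notMem (by simp)]
        have hlt : toLex (wv C M lev (a k)) < toLex (wv C M lev (a (k + 1))) := by
          refine wv_lt C M lev hlev (hx k (by omega)) (ha k (by omega)) (ha (k + 1) hk) ?_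
          obtain ⟨g, hg, h⟩ := hch
          exact ⟨g, hg, fun h' => h h'.symm⟩
        have hsub : insert (wv C M lev (a k))
            (box.filter (fun r => toLex r < toLex (wv C M lev (a k)))) ⊆
            box.filter (fun r => toLex r < toLex (wv C M lev (a (k + 1)))) := by
          intro r hr
          rw [Finset.mem_insert] at hr
          rw [Finset.mem_filter]
          rcases hr with rfl | hr
          · exact ⟨hmem _, hlt⟩
          · rw [Finset.mem_filter] at hr
            exact ⟨hr.1, hr.2.trans hlt⟩
        have h1 := Finset.card_le_card hsub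
        rw [Finset.card_insert_of_notMem (by
          rw [Finset.mem_filter]
          rintro ⟨_, h⟩
          exact lt_irrefl _ h)] at h1
        omega
      · rw [if_neg hch]
        push Not at hch
        have heq : wv C M lev (a k) = wv C M lev (a (k + 1)) := by
          funext l
          unfold wv
          congr 1
          apply Finset.filter_congr
          intro g hg
          rw [Finset.mem_filter] at hg
          rw [hch g hg.1]
        rw [← heq]
        exact ih'
  have h1 : (box.filter (fun r => toLex r < toLex (wv C M lev (a m)))).card < box.card := by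
    apply Finset.card_lt_card
    rw [Finset.ssubset_iff_of_subset (Finset.filter_subset _ _)]
    refine ⟨wv C M lev (a m), hmem _, ?_⟩
    rw [Finset.mem_filter]
    rintro ⟨_, h⟩
    exact lt_irrefl _ h
  have := main m le_rfl
  omega

/-- The product over the levels is at most `2 ^ K`, where `K` is the number of entry vertices. -/
theorem entryProd_le {n s : ℕ} (C : Circuit n s) (M : ℕ) (lev : Fin n ⊕ Fin s → ℕ)
    (hlev : C.IsLevel M lev) : C.entryProd M lev ≤ 2 ^ C.entry.card := by
  classical
  unfold Circuit.entryProd
  calc ∏ l ∈ range M, (1 + (C.entry.filter (fun u => lev u = l)).card)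
      ≤ ∏ l ∈ range M, 2 ^ (C.entry.filter (fun u => lev u = l)).card := by
        refine Finset.prod_le_prod' fun l _ => ?_
        rw [add_comm]
        exact Nat.lt_two_pow_self
    _ = 2 ^ ∑ l ∈ range M, (C.entry.filter (fun u => lev u = l)).card := by
        rw [Finset.prod_pow_eq_pow_sum]
    _ = 2 ^ C.entry.card := by
        congr 1
        rw [← Finset.card_eq_sum_card_fiberwise]
        intro u hu
        simpa using hlev.1 u hu

/-- Every circuit has a level function. -/
theorem exists_level {n s : ℕ} (C : Circuit n s) : ∃ M lev, C.IsLevel M lev := by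
  classical
  obtain ⟨rank, hrank⟩ := C.acyclic
  refine ⟨Finset.univ.sup rank + 1, rank, ?_, ?_, ?_⟩
  · intro v _
    exact Nat.lt_succ_of_le (Finset.le_sup (Finset.mem_univ v))
  · intro g u hu
    exact (hrank g u hu).le
  · intro g _ u hu
    exact hrank g u hu

theorem EntryChangesLE.mono {n s : ℕ} {C : Circuit n s} {T T' : ℕ} (h : C.EntryChangesLE T)
    (hT : T ≤ T') : C.EntryChangesLE T' :=
  fun m x a hx ha => (h m x a hx ha).trans hT

theorem entry_card_le {n s : ℕ} (C : Circuit n s) : C.entry.card ≤ C.entryWires :=
  Finset.card_biUnion_le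

theorem changes_two_pow {n s : ℕ} (C : Circuit n s) : C.EntryChangesLE (2 ^ C.entry.card - 1) := by
  obtain ⟨M, lev, hlev⟩ := exists_level C
  intro m x a hx ha
  have h1 := changes_of_level C M lev hlev m x a hx ha
  have h2 := entryProd_le C M lev hlev
  omega

theorem changes_wires {n s : ℕ} (C : Circuit n s) : C.EntryChangesLE (2 ^ C.entryWires - 1) := by
  refine EntryChangesLE.mono (changes_two_pow C) ?_
  have := Nat.pow_le_pow_right (n := 2) (by norm_num) (entry_card_le C)
  omega

end Pool.Agent.Lib_MP_22d2c8_gen
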