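import Pool.Agent.Lib_MP_22d2c8_gen.Approx

/-!
# The lower bound for monotone circuits
-/

namespace Pool.Agent.Lib_MP_22d2c8_gen

open Finset

section counting

variable {P : Type} [Fintype P] [DecidableEq P]

theorem card_pi_div (m : ℕ) (T : P → Finset (Fin m)) :
    ((Fintype.piFinset T).card : ℝ) / (m : ℝ) ^ (Fintype.card P) =
      ∏ p, (((T p).card : ℝ) / m) := by
  rw [Fintype.card_piFinset, Finset.prod_div_distrib, Finset.prod_const, Finset.card_univ]
  push_cast
  rfl

/-- Existence of a dense set which contains `E0`, meets all clauses and contains no codeword. -/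
theorem exists_dense {A : Type} [Fintype A] (W : A → Finset P) (w : ℕ) (hw : ∀ a, (W a).card = w)
    (E0 : Finset P) (eC : Finset (Finset P)) (k : ℕ) (hk : ∀ c ∈ eC, c.card = k) (m : ℕ)
    (hm : 1 ≤ m)
    (hsum : (E0.card : ℝ) / m + (eC.card : ℝ) * (1 / m) ^ k +
      (Fintype.card A : ℝ) * ((m - 1 : ℝ) / m) ^ w < 1) :
    ∃ x : Finset P, E0 ⊆ x ∧ (∀ c ∈ eC, (c ∩ x).Nonempty) ∧ ∀ a, ¬ W a ⊆ x := by
  classical
  have : NeZero m := ⟨by omega⟩
  set z0 : Fin m := 0 with hz0
  have hm0 : (0 : ℝ) < m := by exact_mod_cast hm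
  -- bad sets
  let B1 : P → Finset (P → Fin m) := fun p => Fintype.piFinset
    (fun r => if r = p then {z0} else Finset.univ)
  let B2 : Finset P → Finset (P → Fin m) := fun c => Fintype.piFinset
    (fun r => if r ∈ c then {z0} else Finset.univ)
  let B3 : Finset P → Finset (P → Fin m) := fun c => Fintype.piFinset
    (fun r => if r ∈ c then Finset.univ \ {z0} else Finset.univ)
  set M : ℝ := (m : ℝ) ^ (Fintype.card P) with hM
  have hMpos : 0 < M := by positivity
  have c2 : ∀ c : Finset P, ((B2 c).card : ℝ) / M = (1 / m) ^ c.card := by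
    intro c
    rw [hM, card_pi_div]
    have : ∀ p : P, (((if p ∈ c then ({z0} : Finset (Fin m)) else Finset.univ).card : ℝ) / m) =
        if p ∈ c then (1 / m : ℝ) else 1 := by
      intro p
      split_ifs
      · simp
      · simp [hm0.ne']
    rw [Finset.prod_congr rfl fun p _ => this p, Finset.prod_ite_mem, Finset.univ_inter,
      Finset.prod_const]
  have c1 : ∀ p : P, ((B1 p).card : ℝ) / M = 1 / m := by
    intro p
    have := c2 {p}
    simp only [B2, Finset.mem_singleton, Finset.card_singleton, pow_one] at this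
    exact this
  have c3 : ∀ c : Finset P, ((B3 c).card : ℝ) / M = ((m - 1 : ℝ) / m) ^ c.card := by
    intro c
    rw [hM, card_pi_div]
    have : ∀ p : P, (((if p ∈ c then (Finset.univ \ {z0} : Finset (Fin m)) else
        Finset.univ).card : ℝ) / m) = if p ∈ c then ((m - 1 : ℝ) / m) else 1 := by
      intro p
      split_ifs
      · rw [Finset.card_sdiff_of_subset (Finset.subset_univ _), Finset.card_univ,
          Fintype.card_fin, Finset.card_singleton, Nat.cast_sub hm, Nat.cast_one]
      · simp [hm0.ne']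
    rw [Finset.prod_congr rfl fun p _ => this p, Finset.prod_ite_mem, Finset.univ_inter,
      Finset.prod_const]
  -- a good function
  have hex : ∃ ω : P → Fin m, ω ∉ E0.biUnion B1 ∪ eC.biUnion B2 ∪
      (Finset.univ : Finset A).biUnion (fun a => B3 (W a)) := by
    by_contra hcon
    push Not at hcon
    have hsub : (Finset.univ : Finset (P → Fin m)) ⊆ E0.biUnion B1 ∪ eC.biUnion B2 ∪
      (Finset.univ : Finset A).biUnion (fun a => B3 (W a)) := fun ω _ => hcon ω
    have hcard := Finset.card_le_card hsub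
    have h1 : (E0.biUnion B1).card ≤ ∑ p ∈ E0, (B1 p).card := Finset.card_biUnion_le
    have h2 : (eC.biUnion B2).card ≤ ∑ c ∈ eC, (B2 c).card := Finset.card_biUnion_le
    have h3 : ((Finset.univ : Finset A).biUnion (fun a => B3 (W a))).card ≤
      ∑ a, (B3 (W a)).card := Finset.card_biUnion_le
    have h4 := Finset.card_union_le (E0.biUnion B1 ∪ eC.biUnion B2)
      ((Finset.univ : Finset A).biUnion (fun a => B3 (W a)))
    have h5 := Finset.card_union_le (E0.biUnion B1) (eC.biUnion B2)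
    have h6 : (Finset.univ : Finset (P → Fin m)).card ≤ ∑ p ∈ E0, (B1 p).card +
        ∑ c ∈ eC, (B2 c).card + ∑ a, (B3 (W a)).card := by omega
    have h7 : (M : ℝ) ≤ ∑ p ∈ E0, ((B1 p).card : ℝ) +
        ∑ c ∈ eC, ((B2 c).card : ℝ) + ∑ a, ((B3 (W a)).card : ℝ) := by
      have : ((Finset.univ : Finset (P → Fin m)).card : ℝ) = M := by
        rw [Finset.card_univ, Fintype.card_fun, Fintype.card_fin, hM]
        push_cast
        rfl
      rw [← this]
      exact_mod_cast h6
    have s1 : ∑ p ∈ E0, ((B1 p).card : ℝ) = M * ((E0.card : ℝ) / m) := by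
      have : ∀ p ∈ E0, ((B1 p).card : ℝ) = M * (1 / m) := by
        intro p _
        rw [← c1 p, mul_div_cancel₀ _ hMpos.ne']
      rw [Finset.sum_congr rfl this, Finset.sum_const, nsmul_eq_mul]
      ring
    have s2 : ∑ c ∈ eC, ((B2 c).card : ℝ) = M * ((eC.card : ℝ) * (1 / m) ^ k) := by
      have : ∀ c ∈ eC, ((B2 c).card : ℝ) = M * (1 / m) ^ k := by
        intro c hc
        rw [← hk c hc, ← c2 c, mul_div_cancel₀ _ hMpos.ne']
      rw [Finset.sum_congr rfl this, Finset.sum_const, nsmul_eq_mul]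
      ring
    have s3 : ∑ a, ((B3 (W a)).card : ℝ) =
        M * ((Fintype.card A : ℝ) * ((m - 1 : ℝ) / m) ^ w) := by
      have : ∀ a ∈ (Finset.univ : Finset A), ((B3 (W a)).card : ℝ) =
          M * ((m - 1 : ℝ) / m) ^ w := by
        intro a _
        rw [← hw a, ← c3 (W a), mul_div_cancel₀ _ hMpos.ne']
      rw [Finset.sum_congr rfl this, Finset.sum_const, nsmul_eq_mul, Finset.card_univ]
      ring
    rw [s1, s2, s3] at h7
    nlinarith
  obtain ⟨ω, hω⟩ := hex
  simp only [Finset.mem_union, Finset.mem_biUnion, not_or, not_exists, not_and,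
    Finset.mem_univ, true_implies] at hω
  obtain ⟨⟨g1, g2⟩, g3⟩ := hω
  refine ⟨Finset.univ.filter (fun p => ω p ≠ z0), ?_, ?_, ?_⟩
  · intro p hp
    rw [Finset.mem_filter]
    refine ⟨Finset.mem_univ p, fun h => g1 p hp ?_⟩
    simp only [B1, Fintype.mem_piFinset]
    intro r
    by_cases hr : r = p
    · rw [if_pos hr, hr, h]; simp
    · rw [if_neg hr]; exact Finset.mem_univ _
  · intro c hc
    by_contra hne
    refine g2 c hc ?_
    simp only [B2, Fintype.mem_piFinset]
    intro r
    by_cases hr : r ∈ c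
    · rw [if_pos hr, Finset.mem_singleton]
      by_contra hr2
      exact hne ⟨r, Finset.mem_inter.mpr ⟨hr, Finset.mem_filter.mpr ⟨Finset.mem_univ _, hr2⟩⟩⟩
    · rw [if_neg hr]; exact Finset.mem_univ _
  · intro a ha
    refine g3 a ?_
    simp only [B3, Fintype.mem_piFinset]
    intro r
    by_cases hr : r ∈ W a
    · rw [if_pos hr, Finset.mem_sdiff, Finset.mem_singleton]
      exact ⟨Finset.mem_univ _, (Finset.mem_filter.mp (ha hr)).2⟩
    · rw [if_neg hr]; exact Finset.mem_univ _

end counting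

/-- The lower bound for monotone circuits: `f0` is true if the input contains a codeword. -/
theorem mono_bound {n s : ℕ} (C : Circuit n s) (hmon : C.IsMonotone)
    (f0 : (Fin n → Bool) → Bool) (hC : C.Computes f0)
    {A : Type} [Fintype A] (W : A → Finset (Fin n)) (w : ℕ) (hw : ∀ a, (W a).card = w)
    (hf : ∀ z : Finset (Fin n), f0 (fun j => decide (j ∈ z)) = true ↔ ∃ a, W a ⊆ z)
    (ρ σ : ℕ) (hρ : 1 ≤ ρ) (hσ : 1 ≤ σ)
    (hW : ∀ E : Finset (Fin n), E.card = ρ + 1 → ∀ a a', E ⊆ W a → E ⊆ W a' → a = a')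
    (m : ℕ) (hm : 1 ≤ m)
    (hsum : (ρ : ℝ) / m + (s : ℝ) * (ρ : ℝ) ^ (σ + 1) * (1 / m) ^ (σ + 1) +
      (Fintype.card A : ℝ) * ((m - 1 : ℝ) / m) ^ w < 1) :
    Fintype.card A ≤ s * σ ^ (ρ + 1) := by
  classical
  by_contra hcon
  push Not at hcon
  have hexF : ∀ z : Finset (Fin n), ∃ a, C.IsRun (fun j => decide (j ∈ z)) a ∧
      a C.out = f0 (fun j => decide (j ∈ z)) := fun z => hC _
  choose F' hF' using hexF
  obtain ⟨eD, eC, hD1, hD2, hC1, hC2, hall⟩ := approx C hmon (fun v z => F' z v)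
    (fun z => (hF' z).1) ρ σ hρ hσ
  -- a codeword which contains no error term
  have hy : ∃ a, ∀ E ∈ eD, ¬ E ⊆ W a := by
    by_contra hcon2
    push Not at hcon2
    choose E hE hEW using hcon2
    have hinj : Function.Injective E := fun a a' h =>
      hW (E a) (hD1 _ (hE a)) a a' (hEW a) (by rw [h]; exact hEW a')
    have : Fintype.card A ≤ eD.card := by
      rw [← Finset.card_univ]
      exact Finset.card_le_card_of_injOn E (fun a _ => hE a) hinj.injOn
    omega
  obtain ⟨y, hy⟩ := hy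
  have hout : F' (W y) C.out = true := by
    rw [(hF' (W y)).2, hf]
    exact ⟨y, Finset.Subset.refl _⟩
  obtain ⟨D, Cc, hApx⟩ := hall C.out
  have hE0 : ∃ E ∈ D, E ⊆ W y := by
    rcases hApx.upp (W y) hout with h | ⟨E, hE, hEW⟩
    · exact h
    · exact absurd hEW (hy E hE)
  obtain ⟨E0, hE0, -⟩ := hE0
  have hm0 : (0 : ℝ) < m := by exact_mod_cast hm
  have hdense := exists_dense W w hw E0 eC (σ + 1) hC1 m hm (by
    have h1 : (E0.card : ℝ) / m ≤ (ρ : ℝ) / m := by
      gcongr
      exact_mod_cast hApx.szD E0 hE0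
    have h2 : (eC.card : ℝ) * (1 / m) ^ (σ + 1) ≤
        (s : ℝ) * (ρ : ℝ) ^ (σ + 1) * (1 / m) ^ (σ + 1) := by
      gcongr
      exact_mod_cast hC2
    linarith)
  obtain ⟨x, hx1, hx2, hx3⟩ := hdense
  have hFx : F' x C.out = true := by
    refine hApx.low x (fun c hc => ?_) hx2
    exact (hApx.hit E0 hE0 c hc).mono (Finset.inter_subset_inter_left hx1)
  rw [(hF' x).2, hf] at hFx
  obtain ⟨a, ha⟩ := hFx
  exact hx3 a ha

end Pool.Agent.Lib_MP_22d2c8_gen
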