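import Pool.Agent.Lib_MP_22d2c8_gen.Transfer
import Pool.Agent.Lib_MP_22d2c8_gen.Mono

/-!
# Graphs of polynomials of small degree
-/

namespace Pool.Agent.Lib_MP_22d2c8_gen

open Finset

/-- The value at `u` of the polynomial with coefficients `a`, modulo `q`. -/
def pval (q d : ℕ) (a : Fin d → Fin q) (u : ℕ) : ℕ := (∑ i : Fin d, (a i : ℕ) * u ^ (i : ℕ)) % q

/-- The graph of a polynomial. -/
def graph (q d : ℕ) (a : Fin d → Fin q) : Finset (Fin q × Fin q) :=
  Finset.univ.filter (fun r => (r.2 : ℕ) = pval q d a r.1)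

theorem graph_card (q d : ℕ) (hq : 1 ≤ q) (a : Fin d → Fin q) : (graph q d a).card = q := by
  have h1 : graph q d a = (Finset.univ : Finset (Fin q)).image
      (fun u : Fin q => (u, (⟨pval q d a (u : ℕ), Nat.mod_lt _ (by omega)⟩ : Fin q))) := by
    ext ⟨u, v⟩
    simp only [graph, Finset.mem_filter, Finset.mem_univ, true_and, Finset.mem_image,
      Prod.mk.injEq, exists_eq_left]
    constructor
    · intro h
      exact Fin.ext h.symm
    · intro h
      rw [← h]
  rw [h1, Finset.card_image_of_injective _ (fun u u' h => (Prod.mk.inj h).1), Finset.card_univ,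
    Fintype.card_fin]

theorem graph_unique (q d : ℕ) (hq : q.Prime) (E : Finset (Fin q × Fin q)) (hE : E.card = d)
    (a a' : Fin d → Fin q) (h : E ⊆ graph q d a) (h' : E ⊆ graph q d a') : a = a' := by
  classical
  have : Fact q.Prime := ⟨hq⟩
  -- the abscissas
  let X : Finset (ZMod q) := E.image (fun r => ((r.1 : ℕ) : ZMod q))
  have hinj : Set.InjOn (fun r : Fin q × Fin q => ((r.1 : ℕ) : ZMod q)) E := by
    intro r hr r' hr' hrr
    have h1 : (r.1 : ℕ) = r'.1 := by
      have := (ZMod.natCast_eq_natCast_iff' _ _ _).mp hrr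
      rwa [Nat.mod_eq_of_lt r.1.2, Nat.mod_eq_of_lt r'.1.2] at this
    have h2 : (r.2 : ℕ) = pval q d a r.1 := (Finset.mem_filter.mp (h hr)).2
    have h3 : (r'.2 : ℕ) = pval q d a r'.1 := (Finset.mem_filter.mp (h hr')).2
    refine Prod.ext (Fin.ext h1) (Fin.ext ?_)
    rw [h2, h3, h1]
  have hX : X.card = d := by rw [← hE]; exact Finset.card_image_of_injOn hinj
  let pol : (Fin d → Fin q) → Polynomial (ZMod q) := fun c =>
    ∑ i : Fin d, Polynomial.C ((c i : ℕ) : ZMod q) * Polynomial.X ^ (i : ℕ)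
  have hdeg : ∀ c, (pol c).degree < d := by
    intro c
    refine lt_of_le_of_lt (Polynomial.degree_sum_le _ _) ?_
    rw [Finset.sup_lt_iff (by exact WithBot.bot_lt_coe d)]
    intro i _
    refine lt_of_le_of_lt (Polynomial.degree_C_mul_X_pow_le _ _) ?_
    exact_mod_cast i.2
  have heval : ∀ (c : Fin d → Fin q) (u : ℕ), (pol c).eval (u : ZMod q) =
      ((pval q d c u : ℕ) : ZMod q) := by
    intro c u
    simp only [pol, pval, ZMod.natCast_mod, Polynomial.eval_finsetSum, Polynomial.eval_mul,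
      Polynomial.eval_C, Polynomial.eval_pow, Polynomial.eval_X]
    push_cast
    rfl
  have hpol : pol a = pol a' := by
    refine Polynomial.eq_of_degrees_lt_of_eval_finset_eq X ?_ ?_ ?_
    · rw [hX]; exact hdeg a
    · rw [hX]; exact hdeg a'
    · intro x hx
      obtain ⟨r, hr, rfl⟩ := Finset.mem_image.mp hx
      rw [heval, heval]
      have h2 : (r.2 : ℕ) = pval q d a r.1 := (Finset.mem_filter.mp (h hr)).2
      have h3 : (r.2 : ℕ) = pval q d a' r.1 := (Finset.mem_filter.mp (h' hr)).2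
      rw [← h2, ← h3]
  have hcoef : ∀ (c : Fin d → Fin q) (i : Fin d), (pol c).coeff i = ((c i : ℕ) : ZMod q) := by
    intro c i
    simp only [pol, Polynomial.finsetSum_coeff, Polynomial.coeff_C_mul, Polynomial.coeff_X_pow]
    rw [Finset.sum_eq_single i]
    · simp
    · intro j _ hj
      rw [if_neg (fun h => hj (Fin.ext h.symm)), mul_zero]
    · intro h; exact absurd (Finset.mem_univ i) h
  funext i
  have h1 := hcoef a i
  rw [hpol, hcoef a' i] at h1
  have := (ZMod.natCast_eq_natCast_iff' _ _ _).mp h1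
  rw [Nat.mod_eq_of_lt (a' i).2, Nat.mod_eq_of_lt (a i).2] at this
  exact (Fin.ext this).symm

theorem two_mul_pow_le (m : ℕ) (hm : 1 ≤ m) : ((m - 1 : ℝ) / m) ^ m ≤ 1 / 2 := by
  rcases Nat.eq_or_lt_of_le hm with h | h
  · rw [← h]; norm_num
  · have hm1 : (0 : ℝ) < (m : ℝ) - 1 := by
      have : (1 : ℝ) < m := by exact_mod_cast h
      linarith
    have hm0 : (0 : ℝ) < m := by linarith
    have h1 : (2 : ℝ) ≤ ((m : ℝ) / (m - 1)) ^ m := by
      have h2 : (m : ℝ) / (m - 1) = 1 + 1 / (m - 1) := by field_simp; ring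
      have h3 := one_add_mul_le_pow (a := 1 / ((m : ℝ) - 1)) (by
        have : 0 ≤ 1 / ((m : ℝ) - 1) := by positivity
        linarith) m
      rw [h2]
      refine le_trans ?_ h3
      have : (1 : ℝ) ≤ m * (1 / (m - 1)) := by
        rw [mul_one_div, le_div_iff₀ hm1]; linarith
      linarith
    have h4 : ((m - 1 : ℝ) / m) ^ m = 1 / ((m : ℝ) / (m - 1)) ^ m := by
      rw [div_pow, div_pow]; field_simp
    rw [h4]
    exact one_div_le_one_div_of_le (by norm_num) h1

/-- The numerical condition. -/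
theorem numeric (q d j s : ℕ) (hd : 2 ≤ d) (hj : 4 * (j + 2) * d ^ 2 ≤ 2 ^ j) (hq : 2 ^ j ≤ q)
    (hq2 : q ≤ 2 ^ (j + 1)) (hs : s ≤ 4 ^ d) :
    s * d ^ (d - 1 + 1) < q ^ d ∧
    (((d - 1 : ℕ) : ℝ) / ((4 * d : ℕ) : ℝ) +
      (s : ℝ) * ((d - 1 : ℕ) : ℝ) ^ (d + 1) * (1 / ((4 * d : ℕ) : ℝ)) ^ (d + 1) +
      ((q ^ d : ℕ) : ℝ) * ((((4 * d : ℕ) : ℝ) - 1) / ((4 * d : ℕ) : ℝ)) ^ q < 1) := by
  have h4d : 4 * d < q := by
    have : 4 * d < 4 * (j + 2) * d ^ 2 := by nlinarith
    omega
  refine ⟨?_, ?_⟩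
  · rw [show d - 1 + 1 = d by omega]
    calc s * d ^ d ≤ 4 ^ d * d ^ d := Nat.mul_le_mul_right _ hs
      _ = (4 * d) ^ d := by rw [mul_pow]
      _ < q ^ d := Nat.pow_lt_pow_left h4d (by omega)
  · have hd0 : (0 : ℝ) < d := by
      have : 0 < d := by omega
      exact_mod_cast this
    have hdm : ((d - 1 : ℕ) : ℝ) = (d : ℝ) - 1 := by
      rw [Nat.cast_sub (by omega)]; simp
    have h4 : ((4 * d : ℕ) : ℝ) = 4 * (d : ℝ) := by push_cast; ring
    have hd1 : (0 : ℝ) ≤ (d : ℝ) - 1 := by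
      have : (2 : ℝ) ≤ d := by exact_mod_cast hd
      linarith
    have t1 : ((d - 1 : ℕ) : ℝ) / ((4 * d : ℕ) : ℝ) < 1 / 4 := by
      rw [hdm, h4, div_lt_div_iff₀ (by positivity) (by norm_num)]
      linarith
    have t2 : (s : ℝ) * ((d - 1 : ℕ) : ℝ) ^ (d + 1) * (1 / ((4 * d : ℕ) : ℝ)) ^ (d + 1) ≤
        1 / 4 := by
      have hs' : (s : ℝ) ≤ 4 ^ d := by exact_mod_cast hs
      have e1 : ((d - 1 : ℕ) : ℝ) ^ (d + 1) ≤ (d : ℝ) ^ (d + 1) := by
        rw [hdm]; gcongr; linarith
      calc (s : ℝ) * ((d - 1 : ℕ) : ℝ) ^ (d + 1) * (1 / ((4 * d : ℕ) : ℝ)) ^ (d + 1)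
          ≤ 4 ^ d * (d : ℝ) ^ (d + 1) * (1 / ((4 * d : ℕ) : ℝ)) ^ (d + 1) := by gcongr
        _ = 1 / 4 := by
            rw [h4, one_div, inv_pow, mul_pow, pow_succ (4 : ℝ) d]
            field_simp
    have t3 : ((q ^ d : ℕ) : ℝ) * ((((4 * d : ℕ) : ℝ) - 1) / ((4 * d : ℕ) : ℝ)) ^ q ≤ 1 / 2 := by
      set m := 4 * d with hm
      set r := (((m : ℕ) : ℝ) - 1) / ((m : ℕ) : ℝ) with hr
      have hm1 : 1 ≤ m := by omega
      have hm1' : (1 : ℝ) ≤ m := by exact_mod_cast hm1
      have hr0 : 0 ≤ r := by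
        rw [hr]; exact div_nonneg (by linarith) (by linarith)
      have hr1 : r ≤ 1 := by
        rw [hr, div_le_one (by linarith)]; linarith
      set k := (j + 1) * d + 1 with hk
      have hmk : m * k ≤ q := by
        have : m * k ≤ 4 * (j + 2) * d ^ 2 := by
          rw [hm, hk]; nlinarith
        omega
      have e1 : r ^ q ≤ (1 / 2) ^ k := by
        calc r ^ q ≤ r ^ (m * k) := pow_le_pow_of_le_one hr0 hr1 hmk
          _ = (r ^ m) ^ k := by rw [pow_mul]
          _ ≤ (1 / 2) ^ k := by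
            gcongr
            exact two_mul_pow_le m hm1
      have e2 : ((q ^ d : ℕ) : ℝ) ≤ 2 ^ ((j + 1) * d) := by
        have : q ^ d ≤ 2 ^ ((j + 1) * d) := by
          rw [pow_mul]; exact Nat.pow_le_pow_left hq2 d
        exact_mod_cast this
      calc ((q ^ d : ℕ) : ℝ) * r ^ q ≤ 2 ^ ((j + 1) * d) * (1 / 2) ^ k := by gcongr
        _ = 1 / 2 := by
          rw [hk, pow_succ, ← mul_assoc, ← mul_pow]
          norm_num
    linarith

/-- The block function: the `q × q` block contains the graph of a polynomial modulo `q` with `d`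
coefficients. -/
noncomputable def blockFun (q d : ℕ) (x : Fin (q * q) → Bool) : Bool := by
  classical
  exact decide (∃ a : Fin d → Fin q, ∀ r ∈ graph q d a, x (finProdFinEquiv r) = true)

theorem blockFun_iff (q d : ℕ) (x : Fin (q * q) → Bool) : blockFun q d x = true ↔
    ∃ a : Fin d → Fin q, ∀ r ∈ graph q d a, x (finProdFinEquiv r) = true := by
  classical
  unfold blockFun
  exact decide_eq_true_iff

/-- Monotone circuits for the block function are large. -/
theorem block_bound {s : ℕ} (q d j : ℕ) (C : Circuit (q * q) s) (hmon : C.IsMonotone)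
    (hC : C.Computes (blockFun q d))
    (hq : q.Prime) (hd : 2 ≤ d) (hj : 4 * (j + 2) * d ^ 2 ≤ 2 ^ j) (hq1 : 2 ^ j ≤ q)
    (hq2 : q ≤ 2 ^ (j + 1)) : 4 ^ d < s := by
  classical
  by_contra hs
  push Not at hs
  obtain ⟨n1, n2⟩ := numeric q d j s hd hj hq1 hq2 hs
  have h := mono_bound C hmon (blockFun q d) hC
    (fun a : Fin d → Fin q => (graph q d a).map finProdFinEquiv.toEmbedding) q
    (fun a => by rw [Finset.card_map]; exact graph_card q d hq.one_lt.le a)
    (fun z => by
      rw [blockFun_iff]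
      refine exists_congr fun a => ?_
      constructor
      · intro h w hw
        obtain ⟨r, hr, rfl⟩ := Finset.mem_map.mp hw
        have := h r hr
        rw [decide_eq_true_eq] at this
        exact this
      · intro h r hr
        rw [decide_eq_true_eq]
        exact h (Finset.mem_map_of_mem _ hr))
    (d - 1) d (by omega) (by omega) (by
      intro E hE a a' h h'
      have h1 : (E.map finProdFinEquiv.symm.toEmbedding).card = d := by
        rw [Finset.card_map]; omega
      refine graph_unique q d hq _ h1 a a' ?_ ?_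
      · intro r hr
        rw [Finset.mem_map_equiv, Equiv.symm_symm] at hr
        have := h hr
        rw [Finset.mem_map_equiv, Equiv.symm_apply_apply] at this
        exact this
      · intro r hr
        rw [Finset.mem_map_equiv, Equiv.symm_symm] at hr
        have := h' hr
        rw [Finset.mem_map_equiv, Equiv.symm_apply_apply] at this
        exact this)
    (4 * d) (by omega) (by
      rw [Fintype.card_fun, Fintype.card_fin, Fintype.card_fin]
      exact n2)
  rw [Fintype.card_fun, Fintype.card_fin, Fintype.card_fin] at h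
  omega

/-- A circuit for a union of blocks, each asking for the graph of a polynomial. -/
theorem poly_bound {n s : ℕ} (C : Circuit n s) (f : (Fin n → Bool) → Bool) (hC : C.Computes f)
    (T : ℕ) (hT : C.EntryChangesLE T) {B : ℕ} (q d j : ℕ)
    (hq : q.Prime) (hd : 2 ≤ d) (hj : 4 * (j + 2) * d ^ 2 ≤ 2 ^ j) (hq1 : 2 ^ j ≤ q)
    (hq2 : q ≤ 2 ^ (j + 1)) (φ : Fin B → Fin (q * q) → Fin n) (hφ : Disj φ)
    (hf : ∀ x : Fin B → Fin (q * q) → Bool, f (cfg φ x) = true ↔
      ∃ b, blockFun q d (x b) = true) (hB : T < B) : 4 ^ d < s + 3 := by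
  have h0 : blockFun q d (fun _ => false) = false := by
    rw [← Bool.not_eq_true, blockFun_iff]
    rintro ⟨a, ha⟩
    have hne : (graph q d a).Nonempty := by
      rw [← Finset.card_pos, graph_card q d hq.one_lt.le]
      exact hq.pos
    obtain ⟨r, hr⟩ := hne
    exact absurd (ha r hr) (by simp)
  obtain ⟨C', h1, h2⟩ := transfer C f hC T hT hB φ hφ (blockFun q d) h0 hf
  exact block_bound q d j C' h1 h2 hq hd hj hq1 hq2

end Pool.Agent.Lib_MP_22d2c8_gen
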