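import Pool.Agent.Lib_MP_22d2c8_gen.Chain

/-!
# Theorem A: a circuit with few changes for the OR of many copies of `f0` gives a monotone circuit
for `f0`
-/

namespace Pool.Agent.Lib_MP_22d2c8_gen

open Finset

/-- Renaming of the vertices. -/
def Op.map {V W : Type} (E : V ≃ W) : Op V → Op W
  | .and P => .and (P.map E.toEmbedding)
  | .or P => .or (P.map E.toEmbedding)
  | .arb P φ => .arb (P.map E.toEmbedding) (fun S => φ (S.map E.symm.toEmbedding))

theorem Op.isArb_map {V W : Type} (E : V ≃ W) (o : Op V) : (o.map E).isArb = o.isArb := by
  rcases o with Q | Q | ⟨Q, φ⟩ <;> rfl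

theorem Op.mem_preds_map {V W : Type} (E : V ≃ W) (o : Op V) (w : W) :
    w ∈ (o.map E).preds ↔ E.symm w ∈ o.preds := by
  rcases o with Q | Q | ⟨Q, φ⟩ <;> simp only [Op.map, Op.preds, Finset.mem_map_equiv]

theorem Op.eval_map {V W : Type} (E : V ≃ W) (o : Op V) (h : o.isArb = false) (a : V → Bool) :
    (o.map E).eval (fun w => a (E.symm w)) = o.eval a := by
  rcases o with Q | Q | ⟨Q, φ⟩
  · simp only [Op.map, Op.eval]
    congr 1
    apply propext
    constructor
    · intro h u hu
      have := h (E u) (by rw [Finset.mem_map_equiv, Equiv.symm_apply_apply]; exact hu)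
      rwa [Equiv.symm_apply_apply] at this
    · intro h w hw
      rw [Finset.mem_map_equiv] at hw
      exact h _ hw
  · simp only [Op.map, Op.eval]
    congr 1
    apply propext
    constructor
    · rintro ⟨w, hw, h⟩
      rw [Finset.mem_map_equiv] at hw
      exact ⟨_, hw, h⟩
    · rintro ⟨u, hu, h⟩
      exact ⟨E u, by rw [Finset.mem_map_equiv, Equiv.symm_apply_apply]; exact hu,
        by rw [Equiv.symm_apply_apply]; exact h⟩
  · exact absurd h (by simp [Op.isArb])

/-- A monotone circuit with an arbitrary set of names of the gates. -/
theorem mk_circuit {m t : ℕ} {G : Type} (e : G ≃ Fin t) (op : G → Op (Fin m ⊕ G))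
    (out : Fin m ⊕ G) (rank : Fin m ⊕ G → ℕ)
    (hrank : ∀ g, ∀ u ∈ (op g).preds, rank u < rank (Sum.inr g))
    (hmono : ∀ g, (op g).isArb = false) (f : (Fin m → Bool) → Bool)
    (hf : ∀ x, ∃ a : Fin m ⊕ G → Bool, (∀ j, a (Sum.inl j) = x j) ∧
      (∀ g, a (Sum.inr g) = (op g).eval a) ∧ a out = f x) :
    ∃ C : Circuit m t, C.IsMonotone ∧ C.Computes f := by
  set E : Fin m ⊕ G ≃ Fin m ⊕ Fin t := Equiv.sumCongr (Equiv.refl _) e with hE
  refine ⟨⟨fun g => (op (e.symm g)).map E, E out, ⟨fun v => rank (E.symm v), ?_⟩⟩, ?_, ?_⟩
  · intro g u hu
    rw [Op.mem_preds_map] at hu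
    have := hrank _ _ hu
    exact this
  · intro g
    show ((op (e.symm g)).map E).isArb = false
    rw [Op.isArb_map]
    exact hmono _
  · intro x
    obtain ⟨a, h1, h2, h3⟩ := hf x
    refine ⟨fun w => a (E.symm w), ⟨?_, ?_⟩, ?_⟩
    · intro j
      exact h1 j
    · intro g
      show a (E.symm (Sum.inr g)) = ((op (e.symm g)).map E).eval (fun w => a (E.symm w))
      rw [Op.eval_map E _ (hmono _)]
      exact h2 (e.symm g)
    · show a (E.symm (E out)) = f x
      rw [Equiv.symm_apply_apply]
      exact h3

/-- **Theorem A.** Let `C` be a circuit with `s` gates for a function `f` which contains the OR of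
`B` disjoint copies of a function `f0` with `f0 (0) = 0` (the other inputs are set to zero). If along
every increasing chain of inputs the vector of the entry vertices changes at most `T < B` times then
`f0` is computed by a monotone circuit with `s + 3` gates. -/
theorem transfer {n s m B : ℕ} (C : Circuit n s) (f : (Fin n → Bool) → Bool)
    (hC : C.Computes f) (T : ℕ) (hT : C.EntryChangesLE T) (hB : T < B)
    (φ : Fin B → Fin m → Fin n) (hφ : Disj φ)
    (f0 : (Fin m → Bool) → Bool) (h0 : f0 (fun _ => false) = false)
    (hf : ∀ x : Fin B → Fin m → Bool, f (cfg φ x) = true ↔ ∃ b, f0 (x b) = true) :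
    ∃ C' : Circuit m (s + 3), C'.IsMonotone ∧ C'.Computes f0 := by
  classical
  obtain ⟨x, b, a0, hxb, ha0, hsp⟩ := dichotomy C f hC T hT hB φ f0 h0 hf
  obtain ⟨rank, hrank⟩ := C.acyclic
  -- the new vertex
  let μ : Fin n ⊕ Fin s → Fin m ⊕ (Fin s ⊕ Fin 3) := fun v => match v with
    | Sum.inr g => Sum.inr (Sum.inl g)
    | Sum.inl j => if h : ∃ i, φ b i = j then Sum.inl h.choose
        else if cfg φ x j = true then Sum.inr (Sum.inr 0) else Sum.inr (Sum.inr 1)
  let S : Finset (Fin n ⊕ Fin s) := insert C.out (C.entry.filter (fun u => a0 u = false))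
  let op : Fin s ⊕ Fin 3 → Op (Fin m ⊕ (Fin s ⊕ Fin 3)) := fun g => match g with
    | Sum.inl g => (match C.op g with
        | .and Q => .and (Q.image μ)
        | .or Q => .or (Q.image μ)
        | .arb _ _ => if a0 (Sum.inr g) = true then .and ∅ else .or ∅)
    | Sum.inr i => if i = 0 then .and ∅ else if i = 1 then .or ∅ else .or (S.image μ)
  let rk : Fin m ⊕ (Fin s ⊕ Fin 3) → ℕ := fun v => match v with
    | Sum.inl _ => 0
    | Sum.inr (Sum.inl g) => rank (Sum.inr g) + 1
    | Sum.inr (Sum.inr i) => if i = 0 then 0 else if i = 1 then 0 else
        Finset.univ.sup (fun v : Fin n ⊕ Fin s => rank v) + 2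
  have hrk : ∀ v, rk (μ v) ≤ rank v + 1 := by
    intro v
    rcases v with j | g
    · simp only [μ]
      split_ifs
      · simp [rk]
      · simp [rk]
      · simp [rk]
    · simp [μ, rk]
  refine mk_circuit (finSumFinEquiv (m := s) (n := 3)) op (Sum.inr (Sum.inr 2)) rk ?_ ?_ f0 ?_
  · intro g u hu
    rcases g with g | i
    · simp only [op] at hu
      rcases hop : C.op g with Q | Q | ⟨Q, ψ⟩
      · rw [hop] at hu
        simp only [Op.preds, Finset.mem_image] at hu
        obtain ⟨v, hv, rfl⟩ := hu
        have h1 := hrk v
        have h2 := hrank g v (by rw [hop]; exact hv)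
        show _ < rank (Sum.inr g) + 1
        omega
      · rw [hop] at hu
        simp only [Op.preds, Finset.mem_image] at hu
        obtain ⟨v, hv, rfl⟩ := hu
        have h1 := hrk v
        have h2 := hrank g v (by rw [hop]; exact hv)
        show _ < rank (Sum.inr g) + 1
        omega
      · rw [hop] at hu
        simp only at hu
        split_ifs at hu <;> simp [Op.preds] at hu
    · simp only [op] at hu
      split_ifs at hu with h1 h2
      · simp [Op.preds] at hu
      · simp [Op.preds] at hu
      · simp only [Op.preds, Finset.mem_image] at hu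
        obtain ⟨v, hv, rfl⟩ := hu
        have h3 := hrk v
        have h4 : rank v ≤ Finset.univ.sup (fun v : Fin n ⊕ Fin s => rank v) :=
          Finset.le_sup (f := fun v : Fin n ⊕ Fin s => rank v) (Finset.mem_univ v)
        show _ < (if i = 0 then 0 else if i = 1 then 0 else
          Finset.univ.sup (fun v : Fin n ⊕ Fin s => rank v) + 2)
        rw [if_neg h1, if_neg h2]
        omega
  · intro g
    rcases g with g | i
    · simp only [op]
      rcases hop : C.op g with Q | Q | ⟨Q, ψ⟩
      · rfl
      · rfl
      · simp only
        split_ifs <;> rfl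
    · simp only [op]
      split_ifs <;> rfl
  · intro y
    obtain ⟨a, ha⟩ := exists_frozen C (fun g => a0 (Sum.inr g)) (cfg φ (Function.update x b y))
    have hs := hsp y a ha
    let a' : Fin m ⊕ (Fin s ⊕ Fin 3) → Bool := fun v => match v with
      | Sum.inl i => y i
      | Sum.inr (Sum.inl g) => a (Sum.inr g)
      | Sum.inr (Sum.inr i) => if i = 0 then true else if i = 1 then false else
          decide (special C a0 a)
    have hμ : ∀ v, a' (μ v) = a v := by
      intro v
      rcases v with j | g
      · rw [ha.inp j]
        simp only [μ]
        by_cases h : ∃ i, φ b i = j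
        · rw [dif_pos h]
          show y h.choose = _
          conv_rhs => rw [← h.choose_spec]
          rw [cfg_apply hφ, Function.update_self]
        · rw [dif_neg h]
          have hj : cfg φ (Function.update x b y) j = cfg φ x j := by
            unfold cfg
            congr 1
            apply propext
            constructor
            · rintro ⟨b', i, h1, h2⟩
              have hb : b' ≠ b := by
                rintro rfl
                exact h ⟨i, h2⟩
              rw [Function.update_of_ne hb] at h1
              exact ⟨b', i, h1, h2⟩
            · rintro ⟨b', i, h1, h2⟩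
              have hb : b' ≠ b := by
                rintro rfl
                exact h ⟨i, h2⟩
              exact ⟨b', i, by rw [Function.update_of_ne hb]; exact h1, h2⟩
          rw [hj]
          by_cases h2 : cfg φ x j = true
          · rw [if_pos h2, h2]; rfl
          · rw [if_neg h2]
            simp only [Bool.not_eq_true] at h2
            rw [h2]; rfl
      · rfl
    refine ⟨a', fun j => rfl, ?_, ?_⟩
    · intro g
      rcases g with g | i
      · show a (Sum.inr g) = _
        simp only [op]
        rcases hop : C.op g with Q | Q | ⟨Q, ψ⟩
        · rw [ha.gt g (by rw [hop]; rfl), hop]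
          simp only [Op.eval]
          congr 1
          apply propext
          constructor
          · intro h w hw
            obtain ⟨v, hv, rfl⟩ := Finset.mem_image.mp hw
            rw [hμ]; exact h v hv
          · intro h v hv
            rw [← hμ]; exact h _ (Finset.mem_image_of_mem μ hv)
        · rw [ha.gt g (by rw [hop]; rfl), hop]
          simp only [Op.eval]
          congr 1
          apply propext
          constructor
          · rintro ⟨v, hv, h⟩
            exact ⟨_, Finset.mem_image_of_mem μ hv, by rw [hμ]; exact h⟩
          · rintro ⟨w, hw, h⟩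
            obtain ⟨v, hv, rfl⟩ := Finset.mem_image.mp hw
            exact ⟨v, hv, by rw [← hμ]; exact h⟩
        · rw [ha.nt g (by rw [hop]; rfl)]
          simp only
          cases hk : a0 (Sum.inr g) with
          | true => simp [Op.eval]
          | false => simp [Op.eval]
      · simp only [op]
        by_cases h1 : i = 0
        · rw [if_pos h1]
          subst h1
          simp [a', Op.eval]
        · rw [if_neg h1]
          by_cases h2 : i = 1
          · rw [if_pos h2]
            subst h2
            simp [a', Op.eval]
          · rw [if_neg h2]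
            show (if i = 0 then true else if i = 1 then false else
              decide (special C a0 a)) = _
            rw [if_neg h1, if_neg h2]
            simp only [Op.eval]
            congr 1
            apply propext
            constructor
            · rintro (h | ⟨u, hu, hu0, h⟩)
              · exact ⟨_, Finset.mem_image_of_mem μ (Finset.mem_insert_self _ _),
                  by rw [hμ]; exact h⟩
              · exact ⟨_, Finset.mem_image_of_mem μ (Finset.mem_insert_of_mem
                  (Finset.mem_filter.mpr ⟨hu, hu0⟩)), by rw [hμ]; exact h⟩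
            · rintro ⟨w, hw, h⟩
              obtain ⟨v, hv, rfl⟩ := Finset.mem_image.mp hw
              rw [hμ] at h
              rcases Finset.mem_insert.mp hv with rfl | hv
              · exact Or.inl h
              · exact Or.inr ⟨v, (Finset.mem_filter.mp hv).1, (Finset.mem_filter.mp hv).2, h⟩
    · show (if (2 : Fin 3) = 0 then true else if (2 : Fin 3) = 1 then false else
        decide (special C a0 a)) = f0 y
      rw [if_neg (by decide), if_neg (by decide)]
      cases hy : f0 y with
      | true => exact decide_eq_true (hs.mpr hy)
      | false =>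
        refine decide_eq_false fun h => ?_
        have := hs.mp h
        rw [hy] at this
        exact absurd this (by simp)

end Pool.Agent.Lib_MP_22d2c8_gen
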