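import Pool.Agent.Lib_MP_22d2c8_gen.Transfer

/-!
# Theorem A with a constant background
-/

namespace Pool.Agent.Lib_MP_22d2c8_gen

open Finset

/-- The input of length `n` with the contents `x b` of the blocks and the constant background `z0`
outside the blocks; `φ b i` is the position of the `i`-th bit of the block `b`. -/
def cfgB {n m B : ℕ} (z0 : Fin n → Bool) (φ : Fin B → Fin m → Fin n)
    (x : Fin B → Fin m → Bool) : Fin n → Bool :=
  fun j => z0 j || decide (∃ b i, x b i = true ∧ φ b i = j)

theorem cfgB_apply {n m B : ℕ} {z0 : Fin n → Bool} {φ : Fin B → Fin m → Fin n} (hφ : Disj φ)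
    (hz : ∀ b i, z0 (φ b i) = false)
    (x : Fin B → Fin m → Bool) (b : Fin B) (i : Fin m) : cfgB z0 φ x (φ b i) = x b i := by
  unfold cfgB
  rw [hz b i, Bool.false_or]
  cases h : x b i with
  | true => exact decide_eq_true ⟨b, i, h, rfl⟩
  | false =>
    refine decide_eq_false ?_
    rintro ⟨b', i', h', he⟩
    obtain ⟨rfl, rfl⟩ := hφ _ _ _ _ he
    rw [h] at h'
    exact absurd h' (by simp)

theorem cfgB_mono {n m B : ℕ} (z0 : Fin n → Bool) (φ : Fin B → Fin m → Fin n)
    {x x' : Fin B → Fin m → Bool}
    (h : ∀ b i, x b i = true → x' b i = true) (j : Fin n) (hj : cfgB z0 φ x j = true) :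
    cfgB z0 φ x' j = true := by
  unfold cfgB at hj ⊢
  rw [Bool.or_eq_true, decide_eq_true_eq] at hj ⊢
  rcases hj with hj | ⟨b, i, h1, h2⟩
  · exact Or.inl hj
  · exact Or.inr ⟨b, i, h b i h1, h2⟩

/-- If at every stage the next block can be filled (without making `f` true) in such a way that
some entry vertex changes its value, then there are at most `T` blocks. -/
theorem chain_genB {n s m B : ℕ} (C : Circuit n s) (f : (Fin n → Bool) → Bool)
    (hC : C.Computes f) (T : ℕ) (hT : C.EntryChangesLE T) (z0 : Fin n → Bool)
    (φ : Fin B → Fin m → Fin n)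
    (f0 : (Fin m → Bool) → Bool) (h0 : f0 (fun _ => false) = false)
    (hstep : ∀ (x : Fin B → Fin m → Bool) (b : Fin B), (x b = fun _ => false) →
      (∀ b', f0 (x b') = false) → ∀ a0, C.IsRun (cfgB z0 φ x) a0 →
      ∃ y, f0 y = false ∧ ∀ a1, C.IsRun (cfgB z0 φ (Function.update x b y)) a1 →
        ∃ u ∈ C.entry, a0 u ≠ a1 u) : B ≤ T := by
  classical
  have main : ∀ i, i ≤ B → ∃ (x : ℕ → Fin B → Fin m → Bool) (a : ℕ → Fin n ⊕ Fin s → Bool),
      (∀ b : Fin B, i ≤ b → x i b = fun _ => false) ∧ (∀ b, f0 (x i b) = false) ∧
      (∀ k ≤ i, C.IsRun (cfgB z0 φ (x k)) (a k)) ∧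
      (∀ k < i, ∀ b j, x k b j = true → x (k + 1) b j = true) ∧
      (∀ k < i, ∃ u ∈ C.entry, a k u ≠ a (k + 1) u) := by
    intro i
    induction i with
    | zero =>
      intro _
      obtain ⟨a0, ha0, -⟩ := hC (cfgB z0 φ (fun _ _ => false))
      refine ⟨fun _ _ _ => false, fun _ => a0, fun _ _ => rfl, fun b => h0, fun _ _ => ha0,
        fun k hk => absurd hk (Nat.not_lt_zero k), fun k hk => absurd hk (Nat.not_lt_zero k)⟩
    | succ i ih =>
      intro hi
      obtain ⟨xs, as, hx1, hx2, hrun, hinc, hchg⟩ := ih (by omega)
      set bi : Fin B := ⟨i, by omega⟩ with hbi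
      have hxe : xs i bi = fun _ => false := hx1 bi (le_refl _)
      obtain ⟨y, hy1, hy2⟩ := hstep (xs i) bi hxe hx2 (as i) (hrun i le_rfl)
      obtain ⟨a1, ha1, -⟩ := hC (cfgB z0 φ (Function.update (xs i) bi y))
      refine ⟨fun k => if k ≤ i then xs k else Function.update (xs i) bi y,
        fun k => if k ≤ i then as k else a1, ?_, ?_, ?_, ?_, ?_⟩
      · intro b hb
        have hbne : b ≠ bi := by
          intro h
          rw [h] at hb
          simp only [hbi] at hb
          omega
        simp only [show ¬ (i + 1 ≤ i) by omega, if_false]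
        rw [Function.update_of_ne hbne]
        exact hx1 b (by omega)
      · intro b
        simp only [show ¬ (i + 1 ≤ i) by omega, if_false]
        by_cases hb : b = bi
        · rw [hb, Function.update_self]; exact hy1
        · rw [Function.update_of_ne hb]; exact hx2 b
      · intro k hk
        by_cases hki : k ≤ i
        · simp only [hki, if_true]; exact hrun k hki
        · simp only [hki, if_false]; exact ha1
      · intro k hk b j hj
        by_cases hki : k < i
        · simp only [show k ≤ i by omega, show k + 1 ≤ i by omega, if_true] at hj ⊢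
          exact hinc k hki b j hj
        · have hki' : k = i := by omega
          subst hki'
          simp only [le_refl, if_true, show ¬ (k + 1 ≤ k) by omega, if_false] at hj ⊢
          by_cases hb : b = bi
          · rw [hb, hxe] at hj
            exact absurd hj (by simp)
          · rw [Function.update_of_ne hb]; exact hj
      · intro k hk
        by_cases hki : k < i
        · simp only [show k ≤ i by omega, show k + 1 ≤ i by omega, if_true]
          exact hchg k hki
        · have hki' : k = i := by omega
          subst hki'
          simp only [le_refl, if_true, show ¬ (k + 1 ≤ k) by omega, if_false]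
          exact hy2 a1 ha1
  obtain ⟨xs, as, -, -, hrun, hinc, hchg⟩ := main B le_rfl
  have h1 := hT B (fun i => cfgB z0 φ (xs i)) as (fun i hi j hj => cfgB_mono z0 φ (hinc i hi) j hj) hrun
  have h2 : (Finset.range B).filter
      (fun i => ∃ u ∈ C.entry, as i u ≠ as (i + 1) u) = Finset.range B := by
    apply Finset.filter_true_of_mem
    intro i hi
    exact hchg i (Finset.mem_range.mp hi)
  rw [h2, Finset.card_range] at h1
  exact h1

/-- The dichotomy: if there are more than `T` blocks then at some stage the frozen circuit with
the entry vertices computes `f0`. -/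
theorem dichotomyB {n s m B : ℕ} (C : Circuit n s) (f : (Fin n → Bool) → Bool)
    (hC : C.Computes f) (T : ℕ) (hT : C.EntryChangesLE T) (hB : T < B)
    (z0 : Fin n → Bool) (φ : Fin B → Fin m → Fin n)
    (f0 : (Fin m → Bool) → Bool) (h0 : f0 (fun _ => false) = false)
    (hf : ∀ x : Fin B → Fin m → Bool, f (cfgB z0 φ x) = true ↔ ∃ b, f0 (x b) = true) :
    ∃ (x : Fin B → Fin m → Bool) (b : Fin B) (a0 : Fin n ⊕ Fin s → Bool),
      (x b = fun _ => false) ∧
      C.IsRun (cfgB z0 φ x) a0 ∧ ∀ y a, Frozen C (fun g => a0 (Sum.inr g))
        (cfgB z0 φ (Function.update x b y)) a → (special C a0 a ↔ f0 y = true) := by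
  classical
  by_contra hcon
  push Not at hcon
  refine absurd (chain_genB C f hC T hT z0 φ f0 h0 ?_) (by omega)
  intro x b hxb hx a0 ha0
  obtain ⟨y, a, haF, hne⟩ := hcon x b a0 hxb ha0
  have hle : ∀ j, cfgB z0 φ x j = true → cfgB z0 φ (Function.update x b y) j = true := by
    intro j hj
    refine cfgB_mono z0 φ ?_ j hj
    intro b' i h
    by_cases hb : b' = b
    · rw [hb, hxb] at h
      exact absurd h (by simp)
    · rw [Function.update_of_ne hb]; exact h
  have hval : ∀ a', C.IsRun (cfgB z0 φ (Function.update x b y)) a' →
      (a' C.out = true ↔ f0 y = true) := by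
    intro a' ha'
    obtain ⟨c, hc, hcf⟩ := hC (cfgB z0 φ (Function.update x b y))
    rw [run_unique C ha' hc, hcf, hf]
    constructor
    · rintro ⟨b', hb'⟩
      by_cases hb : b' = b
      · rw [hb, Function.update_self] at hb'; exact hb'
      · rw [Function.update_of_ne hb, hx b'] at hb'
        exact absurd hb' (by simp)
    · intro h
      exact ⟨b, by rw [Function.update_self]; exact h⟩
  -- `f0 y = true` implies `special`
  have h1 : f0 y = true → special C a0 a := by
    intro h
    by_contra hs
    unfold special at hs
    push Not at hs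
    have hrun := frozen_is_run C ha0 hle haF (fun u hu hu0 => by
      have := hs.2 u hu hu0
      simpa using this)
    exact hs.1 ((hval a hrun).mpr h)
  have hy0 : f0 y = false ∧ special C a0 a := by
    rcases hne with ⟨h2, h3⟩ | ⟨h2, h3⟩
    · exact ⟨by simpa using h3, h2⟩
    · exact absurd (h1 h3) h2
  refine ⟨y, hy0.1, fun a1 ha1 => ?_⟩
  by_contra hall
  push Not at hall
  have hF1 := run_is_frozen C ha0 ha1 (fun u hu => (hall u hu).symm)
  have heq : a1 = a := frozen_unique C _ hF1 haF
  rcases hy0.2 with h | ⟨u, hu, hu0, hu1⟩
  · rw [← heq] at h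
    have := (hval a1 ha1).mp h
    rw [hy0.1] at this
    exact absurd this (by simp)
  · rw [← heq, ← hall u hu, hu0] at hu1
    exact absurd hu1 (by simp)

/-- **Theorem A.** Let `C` be a circuit with `s` gates for a function `f` which contains the OR of
`B` disjoint copies of a function `f0` with `f0 (0) = 0` (the other inputs are set to the constants
`z0`). If along
every increasing chain of inputs the vector of the entry vertices changes at most `T < B` times then
`f0` is computed by a monotone circuit with `s + 3` gates. -/
theorem transferB {n s m B : ℕ} (C : Circuit n s) (f : (Fin n → Bool) → Bool)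
    (hC : C.Computes f) (T : ℕ) (hT : C.EntryChangesLE T) (hB : T < B)
    (z0 : Fin n → Bool) (φ : Fin B → Fin m → Fin n) (hφ : Disj φ)
    (hz : ∀ b i, z0 (φ b i) = false)
    (f0 : (Fin m → Bool) → Bool) (h0 : f0 (fun _ => false) = false)
    (hf : ∀ x : Fin B → Fin m → Bool, f (cfgB z0 φ x) = true ↔ ∃ b, f0 (x b) = true) :
    ∃ C' : Circuit m (s + 3), C'.IsMonotone ∧ C'.Computes f0 := by
  classical
  obtain ⟨x, b, a0, hxb, ha0, hsp⟩ := dichotomyB C f hC T hT hB z0 φ f0 h0 hf
  obtain ⟨rank, hrank⟩ := C.acyclic
  -- the new vertex
  let μ : Fin n ⊕ Fin s → Fin m ⊕ (Fin s ⊕ Fin 3) := fun v => match v with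
    | Sum.inr g => Sum.inr (Sum.inl g)
    | Sum.inl j => if h : ∃ i, φ b i = j then Sum.inl h.choose
        else if cfgB z0 φ x j = true then Sum.inr (Sum.inr 0) else Sum.inr (Sum.inr 1)
  let S : Finset (Fin n ⊕ Fin s) := insert C.out (C.entry.filter (fun u => a0 u = false))
  let op : Fin s ⊕ Fin 3 → Op (Fin m ⊕ (Fin s ⊕ Fin 3)) := fun g => match g with
    | Sum.inl g => (match C.op g with
        | .and Q => .and (Q.image μ)
        | .or Q => .or (Q.image μ)
        | .arb _ _ => if a0 (Sum.inr g) = true then .and ∅ else .or ∅)
    | Sum.inr i => if i = 0 then .and ∅ else if i = 1 then .or ∅ else .or (S.image μ)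
  let rk : Fin m ⊕ (Fin s ⊕ Fin 3) → ℕ := fun v => match v with
    | Sum.inl _ => 0
    | Sum.inr (Sum.inl g) => rank (Sum.inr g) + 1
    | Sum.inr (Sum.inr i) => if i = 0 then 0 else if i = 1 then 0 else
        Finset.univ.sup (fun v : Fin n ⊕ Fin s => rank v) + 2
  have hrk : ∀ v, rk (μ v) ≤ rank v + 1 := by
    intro v
    rcases v with j | g
    · simp only [μ]
      split_ifs
      · simp [rk]
      · simp [rk]
      · simp [rk]
    · simp [μ, rk]
  refine mk_circuit (finSumFinEquiv (m := s) (n := 3)) op (Sum.inr (Sum.inr 2)) rk ?_ ?_ f0 ?_
  · intro g u hu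
    rcases g with g | i
    · simp only [op] at hu
      rcases hop : C.op g with Q | Q | ⟨Q, ψ⟩
      · rw [hop] at hu
        simp only [Op.preds, Finset.mem_image] at hu
        obtain ⟨v, hv, rfl⟩ := hu
        have h1 := hrk v
        have h2 := hrank g v (by rw [hop]; exact hv)
        show _ < rank (Sum.inr g) + 1
        omega
      · rw [hop] at hu
        simp only [Op.preds, Finset.mem_image] at hu
        obtain ⟨v, hv, rfl⟩ := hu
        have h1 := hrk v
        have h2 := hrank g v (by rw [hop]; exact hv)
        show _ < rank (Sum.inr g) + 1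
        omega
      · rw [hop] at hu
        simp only at hu
        split_ifs at hu <;> simp [Op.preds] at hu
    · simp only [op] at hu
      split_ifs at hu with h1 h2
      · simp [Op.preds] at hu
      · simp [Op.preds] at hu
      · simp only [Op.preds, Finset.mem_image] at hu
        obtain ⟨v, hv, rfl⟩ := hu
        have h3 := hrk v
        have h4 : rank v ≤ Finset.univ.sup (fun v : Fin n ⊕ Fin s => rank v) :=
          Finset.le_sup (f := fun v : Fin n ⊕ Fin s => rank v) (Finset.mem_univ v)
        show _ < (if i = 0 then 0 else if i = 1 then 0 else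
          Finset.univ.sup (fun v : Fin n ⊕ Fin s => rank v) + 2)
        rw [if_neg h1, if_neg h2]
        omega
  · intro g
    rcases g with g | i
    · simp only [op]
      rcases hop : C.op g with Q | Q | ⟨Q, ψ⟩
      · rfl
      · rfl
      · simp only
        split_ifs <;> rfl
    · simp only [op]
      split_ifs <;> rfl
  · intro y
    obtain ⟨a, ha⟩ := exists_frozen C (fun g => a0 (Sum.inr g)) (cfgB z0 φ (Function.update x b y))
    have hs := hsp y a ha
    let a' : Fin m ⊕ (Fin s ⊕ Fin 3) → Bool := fun v => match v with
      | Sum.inl i => y i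
      | Sum.inr (Sum.inl g) => a (Sum.inr g)
      | Sum.inr (Sum.inr i) => if i = 0 then true else if i = 1 then false else
          decide (special C a0 a)
    have hμ : ∀ v, a' (μ v) = a v := by
      intro v
      rcases v with j | g
      · rw [ha.inp j]
        simp only [μ]
        by_cases h : ∃ i, φ b i = j
        · rw [dif_pos h]
          show y h.choose = _
          conv_rhs => rw [← h.choose_spec]
          rw [cfgB_apply hφ hz, Function.update_self]
        · rw [dif_neg h]
          have hj : cfgB z0 φ (Function.update x b y) j = cfgB z0 φ x j := by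
            unfold cfgB
            congr 2
            apply propext
            constructor
            · rintro ⟨b', i, h1, h2⟩
              have hb : b' ≠ b := by
                rintro rfl
                exact h ⟨i, h2⟩
              rw [Function.update_of_ne hb] at h1
              exact ⟨b', i, h1, h2⟩
            · rintro ⟨b', i, h1, h2⟩
              have hb : b' ≠ b := by
                rintro rfl
                exact h ⟨i, h2⟩
              exact ⟨b', i, by rw [Function.update_of_ne hb]; exact h1, h2⟩
          rw [hj]
          by_cases h2 : cfgB z0 φ x j = true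
          · rw [if_pos h2, h2]; rfl
          · rw [if_neg h2]
            simp only [Bool.not_eq_true] at h2
            rw [h2]; rfl
      · rfl
    refine ⟨a', fun j => rfl, ?_, ?_⟩
    · intro g
      rcases g with g | i
      · show a (Sum.inr g) = _
        simp only [op]
        rcases hop : C.op g with Q | Q | ⟨Q, ψ⟩
        · rw [ha.gt g (by rw [hop]; rfl), hop]
          simp only [Op.eval]
          congr 1
          apply propext
          constructor
          · intro h w hw
            obtain ⟨v, hv, rfl⟩ := Finset.mem_image.mp hw
            rw [hμ]; exact h v hv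
          · intro h v hv
            rw [← hμ]; exact h _ (Finset.mem_image_of_mem μ hv)
        · rw [ha.gt g (by rw [hop]; rfl), hop]
          simp only [Op.eval]
          congr 1
          apply propext
          constructor
          · rintro ⟨v, hv, h⟩
            exact ⟨_, Finset.mem_image_of_mem μ hv, by rw [hμ]; exact h⟩
          · rintro ⟨w, hw, h⟩
            obtain ⟨v, hv, rfl⟩ := Finset.mem_image.mp hw
            exact ⟨v, hv, by rw [← hμ]; exact h⟩
        · rw [ha.nt g (by rw [hop]; rfl)]
          simp only
          cases hk : a0 (Sum.inr g) with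
          | true => simp [Op.eval]
          | false => simp [Op.eval]
      · simp only [op]
        by_cases h1 : i = 0
        · rw [if_pos h1]
          subst h1
          simp [a', Op.eval]
        · rw [if_neg h1]
          by_cases h2 : i = 1
          · rw [if_pos h2]
            subst h2
            simp [a', Op.eval]
          · rw [if_neg h2]
            show (if i = 0 then true else if i = 1 then false else
              decide (special C a0 a)) = _
            rw [if_neg h1, if_neg h2]
            simp only [Op.eval]
            congr 1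
            apply propext
            constructor
            · rintro (h | ⟨u, hu, hu0, h⟩)
              · exact ⟨_, Finset.mem_image_of_mem μ (Finset.mem_insert_self _ _),
                  by rw [hμ]; exact h⟩
              · exact ⟨_, Finset.mem_image_of_mem μ (Finset.mem_insert_of_mem
                  (Finset.mem_filter.mpr ⟨hu, hu0⟩)), by rw [hμ]; exact h⟩
            · rintro ⟨w, hw, h⟩
              obtain ⟨v, hv, rfl⟩ := Finset.mem_image.mp hw
              rw [hμ] at h
              rcases Finset.mem_insert.mp hv with rfl | hv
              · exact Or.inl h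
              · exact Or.inr ⟨v, (Finset.mem_filter.mp hv).1, (Finset.mem_filter.mp hv).2, h⟩
    · show (if (2 : Fin 3) = 0 then true else if (2 : Fin 3) = 1 then false else
        decide (special C a0 a)) = f0 y
      rw [if_neg (by decide), if_neg (by decide)]
      cases hy : f0 y with
      | true => exact decide_eq_true (hs.mpr hy)
      | false =>
        refine decide_eq_false fun h => ?_
        have := hs.mp h
        rw [hy] at this
        exact absurd this (by simp)

end Pool.Agent.Lib_MP_22d2c8_gen
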